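import Pool.Agent.Helper776.B0123

set_option autoImplicit false

/-!
An infinite word over {0,1,4} without additive cubes.
-/

namespace Pool.Agent.Helper776.T014

open Pool.Agent.Helper776 Pool.Agent.Helper776.Dekking

/-- packed letters of the images (3 bits each, least significant first) -/
def gcode (a : ℕ) : ℕ :=
    if a = 0 then 5080583331145337611277249548576 else
    if a = 1 then 7928408780933652660740648341792 else
    if a = 2 then 7928417263815335987163028525344 else
    7928417263819957856858152374560

/-- packed prefix sums of the images (8 bits each) -/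
def pcode (a : ℕ) : ℕ :=
    if a = 0 then 21468753896980091525492284573115014288862901315949071212213083938580378114369997364264960 else
    if a = 1 then 27959309584427587135210781073947673399316337632355270958144329037263909351738891584143360 else
    if a = 2 then 34449865391375704566948156841543772002927749517105519922152810522859337929189907820183552 else
    40940421198323821998685851436965810261174108287916538649954219830509516122680243391823872

/-- the letter at place r of the image of a -/
def G (a r : ℕ) : ℕ := (gcode a >>> (3 * r)) % 8

/-- prefix sums of images -/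
def p (a r : ℕ) : ℕ := (pcode a >>> (8 * r)) % 256

/-- weights of the base letters -/
def w (a : ℕ) : ℕ :=
    if a = 0 then 0 else
    if a = 1 then 1 else
    if a = 2 then 2 else
    3

def mask : ℕ := 744649490031544155455519602925123458583729356723190312595432983223492927555883456997738523994793583552528313691801503662031841556061765905

def M : ℕ := 329659661725223710955058264503988117397634862487557144167117524800315203613104838858141551448381932741041219167100038418954542958045119052651287670228217385896494628791790992757876241025488326807456045868824160020929562391563477158152785848505337953079697736478678915677670251396839350516909797221943440239248498575282946898932398897943142506683423323502512661091754707145687085808793018685380806966258103065910358746863361682927996380228716445935933679494943240201302400820090263000971570983384332399181733308114318976313903179258429649333210535338769003856145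

theorem c0 : ∀ a < 4, p a 0 = 0 := by decide +kernel
theorem cL : ∀ a < 4, p a 36 = 43 + 13 * w a := by decide +kernel
theorem cs : ∀ a < 4, ∀ r < 36, p a (r + 1) = p a r + G a r := by decide +kernel
theorem cm : ∀ a < 4, ∀ r < 36, mask.testBit (Cert.cls 36 13 35 p a r) = true := by
  decide +kernel
theorem cM : ∀ e < 4 * (36 * 13), M.testBit e = mask.testBit (e % (36 * 13)) := by
  decide +kernel
theorem cA : ∀ d < 36 * 13, 0 < d →
    (mask &&& (M >>> d) &&& (M >>> (2 * d)) &&& (M >>> (3 * d))) = 0 := by decide +kernel
set_option synthInstance.maxSize 100000 in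
theorem ct : ∀ r < 36, ∀ a0 < 4, ∀ a1 < 4, ∀ a2 < 4, ∀ a3 < 4,
    (p a0 r % 13 = p a1 r % 13 ∧ p a1 r % 13 = p a2 r % 13 ∧
      p a2 r % 13 = p a3 r % 13) →
    ((p a0 r = p a1 r ∧ p a1 r = p a2 r ∧ p a2 r = p a3 r) ∨
     (p a0 r + 13 * w a1 = p a1 r + 13 * w a0 ∧ p a1 r + 13 * w a2 = p a2 r + 13 * w a1 ∧
      p a2 r + 13 * w a3 = p a3 r + 13 * w a2)) := by decide +kernel

theorem descent (x : ℕ → ℕ) (hx : ∀ i, x i < 4) (y : ℕ → ℕ)
    (hy : ∀ m r, r < 36 → y (36 * m + r) = G (x m) r)
    (n0 k : ℕ) (h : IsCube (fun i => (y i : ℤ)) n0 k) :
    ∃ m q, k = 36 * q ∧ IsCube (fun i => (w (x i) : ℤ)) m q :=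
  Cert.uniform_descent 4 36 13 43 35 w G p mask M (by norm_num) (by norm_num)
    (by norm_num) (by norm_num) c0 cL cs cm cM cA ct x hx y hy n0 k h

/-- image of the base word -/
def y (n : ℕ) : ℕ := G (B0123.x (n / 36)) (n % 36)

theorem y_at (m r : ℕ) (hr : r < 36) : y (36 * m + r) = G (B0123.x m) r := by
  have h1 : (36 * m + r) / 36 = m := by omega
  have h2 : (36 * m + r) % 36 = r := by omega
  unfold y
  rw [h1, h2]

theorem w_eq : ∀ a < 4, w a = B0123.w a := by decide +kernel

theorem no_cube (n k : ℕ) (hk : 0 < k) : ¬ IsCube (fun i => (y i : ℤ)) n k := by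
  intro h
  obtain ⟨m, q, rfl, hq⟩ := descent B0123.x B0123.x_lt y y_at n k h
  have e : (fun i => (w (B0123.x i) : ℤ)) = (fun i => (B0123.y i : ℤ)) := by
    funext i
    rw [w_eq _ (B0123.x_lt i)]
    rfl
  rw [e] at hq
  exact B0123.no_cube q m (by omega) hq

theorem G_mem : ∀ a < 4, ∀ r < 36, G a r = 0 ∨ G a r = 1 ∨ G a r = 4 := by decide +kernel

theorem y_mem (n : ℕ) : y n = 0 ∨ y n = 1 ∨ y n = 4 :=
  G_mem _ (B0123.x_lt _) _ (Nat.mod_lt _ (by norm_num))

end Pool.Agent.Helper776.T014
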