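import Pool.Agent.Helper776.T013

set_option autoImplicit false

/-!
An infinite word over {0,1,5} without additive cubes.
-/

namespace Pool.Agent.Helper776.T015

open Pool.Agent.Helper776 Pool.Agent.Helper776.Dekking

/-- packed letters of the images (3 bits each, least significant first) -/
def gcode (a : ℕ) : ℕ :=
    if a = 0 then 768927601482459168799767693832 else
    if a = 1 then 768928111539454420894749854216 else
    768928111539697644138546911752

/-- packed prefix sums of the images (8 bits each) -/
def pcode (a : ℕ) : ℕ :=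
    if a = 0 then 87762894194768784384602784457379108010435081424703205664068840838167990072490179231744 else
    if a = 1 then 113116627815659868102327732889961669386730312398480872454701085055609747594199791894528 else
    163824095057442035537778471916696343279319997829604542669457470581802975287207862009856

/-- the letter at place r of the image of a -/
def G (a r : ℕ) : ℕ := (gcode a >>> (3 * r)) % 8

/-- prefix sums of images -/
def p (a r : ℕ) : ℕ := (pcode a >>> (8 * r)) % 256

/-- weights of the base letters -/
def w (a : ℕ) : ℕ :=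
    if a = 0 then 0 else
    if a = 1 then 1 else
    3

def mask : ℕ := 36199986357285641463790362850910445311053060450964758024579891830151622718514760973777002982529321671405033410815308329939395638657025

def M : ℕ := 29150934941111340208442707265112403014900029898197234233031204616862065592324285549906533841548882520318243162125035875497086209817562499609926543764542192924690353774651654376667598657973123208016686543121439423907410076089236229472702518049563374385318681473204031954500697636951461422131225468407224704743929109561438885782084364775351903319389727670791552336146568013838666948622619569754885539097491847038845618801761148260183229162780000533710494616899849545364058208405355019376410601877173562549359262262341841830035692318151019663130625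

theorem c0 : ∀ a < 3, p a 0 = 0 := by decide +kernel
theorem cL : ∀ a < 3, p a 35 = 45 + 13 * w a := by decide +kernel
theorem cs : ∀ a < 3, ∀ r < 35, p a (r + 1) = p a r + G a r := by decide +kernel
theorem cm : ∀ a < 3, ∀ r < 35, mask.testBit (Cert.cls 35 13 33 p a r) = true := by
  decide +kernel
theorem cM' : ∀ q < 4 * 13, ∀ r < 35, M.testBit (35 * q + r) =
    mask.testBit ((35 * q + r) % (35 * 13)) := by
  decide +kernel
theorem cM (e : ℕ) (he : e < 4 * (35 * 13)) : M.testBit e = mask.testBit (e % (35 * 13)) := by
  have h := cM' (e / 35) (by omega) (e % 35) (Nat.mod_lt _ (by norm_num))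
  rwa [Nat.div_add_mod] at h
theorem cA' : ∀ q < 13, ∀ r < 35, 0 < 35 * q + r →
    (mask &&& (M >>> (35 * q + r)) &&& (M >>> (2 * (35 * q + r))) &&&
      (M >>> (3 * (35 * q + r)))) = 0 := by decide +kernel
theorem cA (d : ℕ) (hd : d < 35 * 13) (h0 : 0 < d) :
    (mask &&& (M >>> d) &&& (M >>> (2 * d)) &&& (M >>> (3 * d))) = 0 := by
  have h := cA' (d / 35) (by omega) (d % 35) (Nat.mod_lt _ (by norm_num))
  rw [Nat.div_add_mod] at h
  exact h h0
set_option synthInstance.maxSize 100000 in
theorem ct : ∀ r < 35, ∀ a0 < 3, ∀ a1 < 3, ∀ a2 < 3, ∀ a3 < 3,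
    (p a0 r % 13 = p a1 r % 13 ∧ p a1 r % 13 = p a2 r % 13 ∧
      p a2 r % 13 = p a3 r % 13) →
    ((p a0 r = p a1 r ∧ p a1 r = p a2 r ∧ p a2 r = p a3 r) ∨
     (p a0 r + 13 * w a1 = p a1 r + 13 * w a0 ∧ p a1 r + 13 * w a2 = p a2 r + 13 * w a1 ∧
      p a2 r + 13 * w a3 = p a3 r + 13 * w a2)) := by decide +kernel

theorem descent (x : ℕ → ℕ) (hx : ∀ i, x i < 3) (y : ℕ → ℕ)
    (hy : ∀ m r, r < 35 → y (35 * m + r) = G (x m) r)
    (n0 k : ℕ) (h : IsCube (fun i => (y i : ℤ)) n0 k) :
    ∃ m q, k = 35 * q ∧ IsCube (fun i => (w (x i) : ℤ)) m q :=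
  Cert.uniform_descent 3 35 13 45 33 w G p mask M (by norm_num) (by norm_num)
    (by norm_num) (by norm_num) c0 cL cs cm cM cA ct x hx y hy n0 k h

/-- image of the base word -/
def y (n : ℕ) : ℕ := G (T013.x (n / 35)) (n % 35)

theorem y_at (m r : ℕ) (hr : r < 35) : y (35 * m + r) = G (T013.x m) r := by
  have h1 : (35 * m + r) / 35 = m := by omega
  have h2 : (35 * m + r) % 35 = r := by omega
  unfold y
  rw [h1, h2]

theorem w_eq : ∀ a < 3, w a = T013.w a := by decide +kernel

theorem no_cube (n k : ℕ) (hk : 0 < k) : ¬ IsCube (fun i => (y i : ℤ)) n k := by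
  intro h
  obtain ⟨m, q, rfl, hq⟩ := descent T013.x T013.x_lt y y_at n k h
  have e : (fun i => (w (T013.x i) : ℤ)) = (fun i => (T013.y i : ℤ)) := by
    funext i
    rw [w_eq _ (T013.x_lt i)]
    rfl
  rw [e] at hq
  exact T013.no_cube q m (by omega) hq

theorem G_mem : ∀ a < 3, ∀ r < 35, G a r = 0 ∨ G a r = 1 ∨ G a r = 5 := by decide +kernel

theorem y_mem (n : ℕ) : y n = 0 ∨ y n = 1 ∨ y n = 5 :=
  G_mem _ (T013.x_lt _) _ (Nat.mod_lt _ (by norm_num))

end Pool.Agent.Helper776.T015
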