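import Pool.Agent.Helper776.B0123

set_option autoImplicit false

/-!
An infinite word over {0,2,5} without additive cubes.
-/

namespace Pool.Agent.Helper776.T025

open Pool.Agent.Helper776 Pool.Agent.Helper776.Dekking

/-- packed letters of the images (3 bits each, least significant first) -/
def gcode (a : ℕ) : ℕ :=
    if a = 0 then 9490885925475912339816 else
    if a = 1 then 9490885936774148969810 else
    if a = 2 then 9493456590561842746706 else
    12790091517797045818706

/-- packed prefix sums of the images (8 bits each) -/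
def pcode (a : ℕ) : ℕ :=
    if a = 0 then 17345541318442487915545362769802054811466166414915875471085600768 else
    if a = 1 then 22714403246643442531517654377194334277789781927683713490120606208 else
    if a = 2 then 28083265174844394201605492866348914985388526160587397189962301952 else
    33452126979485262134807098372524965953866424528130857790247010816

/-- the letter at place r of the image of a -/
def G (a r : ℕ) : ℕ := (gcode a >>> (3 * r)) % 8

/-- prefix sums of images -/
def p (a r : ℕ) : ℕ := (pcode a >>> (8 * r)) % 256

/-- weights of the base letters -/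
def w (a : ℕ) : ℕ :=
    if a = 0 then 0 else
    if a = 1 then 1 else
    if a = 2 then 2 else
    3

def mask : ℕ := 298559790731364863766379399994326055304373579632684341380682856737889443122298802649925466491824914693

def M : ℕ := 52413953724971124120864640468432209694288797783575674951773623926108507165500664761207732055143364685734271705630454688832546117971929719056276684764562789282548959625983387622046982807844193953548211811191234578871218465757259182605515359881326695972625459439539493945964635295958921952119570214645887969684259911070072184329885811996392730416576042158044270977028292297298437128251718576645338891033002245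

theorem c0 : ∀ a < 4, p a 0 = 0 := by decide +kernel
theorem cL : ∀ a < 4, p a 26 = 42 + 13 * w a := by decide +kernel
theorem cs : ∀ a < 4, ∀ r < 26, p a (r + 1) = p a r + G a r := by decide +kernel
theorem cm : ∀ a < 4, ∀ r < 26, mask.testBit (Cert.cls 26 13 23 p a r) = true := by
  decide +kernel
theorem cM : ∀ e < 4 * (26 * 13), M.testBit e = mask.testBit (e % (26 * 13)) := by
  decide +kernel
theorem cA : ∀ d < 26 * 13, 0 < d →
    (mask &&& (M >>> d) &&& (M >>> (2 * d)) &&& (M >>> (3 * d))) = 0 := by decide +kernel
set_option synthInstance.maxSize 100000 in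
theorem ct : ∀ r < 26, ∀ a0 < 4, ∀ a1 < 4, ∀ a2 < 4, ∀ a3 < 4,
    (p a0 r % 13 = p a1 r % 13 ∧ p a1 r % 13 = p a2 r % 13 ∧
      p a2 r % 13 = p a3 r % 13) →
    ((p a0 r = p a1 r ∧ p a1 r = p a2 r ∧ p a2 r = p a3 r) ∨
     (p a0 r + 13 * w a1 = p a1 r + 13 * w a0 ∧ p a1 r + 13 * w a2 = p a2 r + 13 * w a1 ∧
      p a2 r + 13 * w a3 = p a3 r + 13 * w a2)) := by decide +kernel

theorem descent (x : ℕ → ℕ) (hx : ∀ i, x i < 4) (y : ℕ → ℕ)
    (hy : ∀ m r, r < 26 → y (26 * m + r) = G (x m) r)
    (n0 k : ℕ) (h : IsCube (fun i => (y i : ℤ)) n0 k) :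
    ∃ m q, k = 26 * q ∧ IsCube (fun i => (w (x i) : ℤ)) m q :=
  Cert.uniform_descent 4 26 13 42 23 w G p mask M (by norm_num) (by norm_num)
    (by norm_num) (by norm_num) c0 cL cs cm cM cA ct x hx y hy n0 k h

/-- image of the base word -/
def y (n : ℕ) : ℕ := G (B0123.x (n / 26)) (n % 26)

theorem y_at (m r : ℕ) (hr : r < 26) : y (26 * m + r) = G (B0123.x m) r := by
  have h1 : (26 * m + r) / 26 = m := by omega
  have h2 : (26 * m + r) % 26 = r := by omega
  unfold y
  rw [h1, h2]

theorem w_eq : ∀ a < 4, w a = B0123.w a := by decide +kernel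

theorem no_cube (n k : ℕ) (hk : 0 < k) : ¬ IsCube (fun i => (y i : ℤ)) n k := by
  intro h
  obtain ⟨m, q, rfl, hq⟩ := descent B0123.x B0123.x_lt y y_at n k h
  have e : (fun i => (w (B0123.x i) : ℤ)) = (fun i => (B0123.y i : ℤ)) := by
    funext i
    rw [w_eq _ (B0123.x_lt i)]
    rfl
  rw [e] at hq
  exact B0123.no_cube q m (by omega) hq

theorem G_mem : ∀ a < 4, ∀ r < 26, G a r = 0 ∨ G a r = 2 ∨ G a r = 5 := by decide +kernel

theorem y_mem (n : ℕ) : y n = 0 ∨ y n = 2 ∨ y n = 5 :=
  G_mem _ (B0123.x_lt _) _ (Nat.mod_lt _ (by norm_num))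

end Pool.Agent.Helper776.T025
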