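import Pool.Agent.Helper776.Three
import Pool.Agent.Helper776.T013
import Pool.Agent.Helper776.T014
import Pool.Agent.Helper776.T015
import Pool.Agent.Helper776.T025

set_option autoImplicit false

/-!
Assembling: additive cubes over all three letter alphabets except progressions.
-/

namespace Pool.Agent.Helper776.Assemble

open Finset Pool.Agent.Helper776.Dekking

/-- The integer word `w` contains no additive cube. -/
def CubeFree (w : ℕ → ℤ) : Prop :=
  ∀ p L : ℕ, 0 < L →
    ¬ ((∑ k ∈ range L, w (p + k)) = (∑ k ∈ range L, w (p + L + k)) ∧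
       (∑ k ∈ range L, w (p + L + k)) = (∑ k ∈ range L, w (p + 2 * L + k)))

/-- Affine images of additive cube free words. -/
theorem CubeFree.affine {w : ℕ → ℤ} (h : CubeFree w) (a d : ℤ) (hd : d ≠ 0) :
    CubeFree (fun n => a + d * w n) := by
  intro p L hL hc
  apply h p L hL
  simp only [sum_add_distrib, sum_const, card_range, ← mul_sum] at hc
  exact ⟨mul_left_cancel₀ hd (add_left_cancel hc.1), mul_left_cancel₀ hd (add_left_cancel hc.2)⟩

/-- the word has letters among 0, i, j and no additive cube -/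
def Good (i j : ℕ) : Prop := ∃ w : ℕ → ℤ, (∀ n, w n = 0 ∨ w n = i ∨ w n = j) ∧ CubeFree w

theorem good_of (i j : ℕ) (y : ℕ → ℕ) (hy : ∀ n, y n = 0 ∨ y n = i ∨ y n = j)
    (hc : ∀ n k : ℕ, 0 < k → ¬ IsCube (fun i => (y i : ℤ)) n k) : Good i j := by
  refine ⟨fun n => (y n : ℤ), fun n => ?_, fun p L hL h => ?_⟩
  · rcases hy n with h | h | h <;> simp [h]
  · exact hc p L hL (Three.block_cube _ p L h.1 h.2)

theorem good13 : Good 1 3 := good_of 1 3 T013.y T013.y_mem (fun n k hk => T013.no_cube k n hk)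
theorem good14 : Good 1 4 := good_of 1 4 T014.y T014.y_mem T014.no_cube
theorem good15 : Good 1 5 := good_of 1 5 T015.y T015.y_mem T015.no_cube
theorem good25 : Good 2 5 := good_of 2 5 T025.y T025.y_mem T025.no_cube

theorem good_large (i j : ℕ) (h : Nat.Coprime i j) (hj : 6 ≤ j) : Good i j :=
  good_of i j (Three.w i j) (Three.w_mem i j) (Three.no_cube i j h hj)

/-- all normalised triples other than `{0, 1, 2}` -/
theorem good_all (i j : ℕ) (h : Nat.Coprime i j) (hi : 0 < i) (hij : 2 * i < j) : Good i j := by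
  rcases Nat.lt_or_ge j 6 with hj | hj
  · have : j = 3 ∨ j = 4 ∨ j = 5 := by omega
    rcases this with rfl | rfl | rfl
    · have : i = 1 := by omega
      subst this; exact good13
    · have : i = 1 := by omega
      subst this; exact good14
    · have : i = 1 ∨ i = 2 := by omega
      rcases this with rfl | rfl
      · exact good15
      · exact good25
  · exact good_large i j h hj

/-- Transport of a good triple to `{a, a + d * i, a + d * j}`. -/
theorem Good.transport {i j : ℕ} (h : Good i j) (a d : ℤ) (hd : d ≠ 0) :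
    ∃ w : ℕ → ℤ, (∀ n, w n = a ∨ w n = a + d * i ∨ w n = a + d * j) ∧ CubeFree w := by
  obtain ⟨w, hw, hc⟩ := h
  refine ⟨fun n => a + d * w n, fun n => ?_, hc.affine a d hd⟩
  rcases hw n with h | h | h <;> simp [h]

/-- Every increasing triple of integers that is not an arithmetic progression is good. -/
theorem triple (a b c : ℤ) (hab : a < b) (hbc : b < c) (hne : a + c ≠ 2 * b) :
    ∃ w : ℕ → ℤ, (∀ n, w n = a ∨ w n = b ∨ w n = c) ∧ CubeFree w := by
  set u := (b - a).toNat with hu
  set v := (c - a).toNat with hv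
  have hu' : (u : ℤ) = b - a := by omega
  have hv' : (v : ℤ) = c - a := by omega
  have hu0 : 0 < u := by omega
  have hv0 : 0 < v := by omega
  set g := Nat.gcd u v with hg
  have hg0 : 0 < g := Nat.gcd_pos_of_pos_left _ hu0
  obtain ⟨i, hi⟩ := Nat.gcd_dvd_left u v
  obtain ⟨j, hj⟩ := Nat.gcd_dvd_right u v
  rw [← hg] at hi hj
  have hcop : Nat.Coprime i j := by
    have h1 : i = u / g := by rw [hi]; exact (Nat.mul_div_cancel_left _ hg0).symm
    have h2 : j = v / g := by rw [hj]; exact (Nat.mul_div_cancel_left _ hg0).symm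
    rw [h1, h2]
    exact Nat.coprime_div_gcd_div_gcd hg0
  have hi0 : 0 < i := by
    rcases Nat.eq_zero_or_pos i with h | h
    · rw [h] at hi; omega
    · exact h
  have huv : u < v := by omega
  have hij : i < j := by
    by_contra hh
    have : g * j ≤ g * i := Nat.mul_le_mul_left g (by omega)
    omega
  have ei : b = a + (g : ℤ) * i := by
    have : (u : ℤ) = g * i := by exact_mod_cast hi
    linarith
  have ej : c = a + (g : ℤ) * j := by
    have : (v : ℤ) = g * j := by exact_mod_cast hj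
    linarith
  have hne2 : 2 * i ≠ j := by
    intro h
    apply hne
    rw [ei, ej, ← h]
    push_cast
    ring
  rcases Nat.lt_or_ge (2 * i) j with h | h
  · obtain ⟨w, hw, hc⟩ := (good_all i j hcop hi0 h).transport a g (by omega)
    exact ⟨w, fun n => by rw [ei, ej]; exact hw n, hc⟩
  · have hc2 : Nat.Coprime (j - i) j := by
      rw [Nat.coprime_self_sub_left (by omega)]
      exact hcop
    obtain ⟨w, hw, hc⟩ := (good_all (j - i) j hc2 (by omega) (by omega)).transport c (-g) (by omega)
    refine ⟨w, fun n => ?_, hc⟩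
    have e1 : c + (-(g : ℤ)) * ((j - i : ℕ) : ℤ) = b := by
      rw [ei, ej]; push_cast [Nat.cast_sub hij.le]; ring
    have e2 : c + (-(g : ℤ)) * (j : ℤ) = a := by rw [ej]; ring
    rcases hw n with h | h | h
    · right; right; exact h
    · right; left; rw [h, e1]
    · left; rw [h, e2]

/-- monotonicity in the alphabet: a set containing three integers `a < b < c` not in progression -/
theorem set_of_triple (A : Finset ℤ) (a b c : ℤ) (ha : a ∈ A) (hb : b ∈ A) (hc : c ∈ A)
    (hab : a < b) (hbc : b < c) (hne : a + c ≠ 2 * b) :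
    ∃ w : ℕ → ℤ, (∀ n, w n ∈ A) ∧ CubeFree w := by
  obtain ⟨w, hw, hcf⟩ := triple a b c hab hbc hne
  refine ⟨w, fun n => ?_, hcf⟩
  rcases hw n with h | h | h <;> rw [h] <;> assumption

theorem exists_min (A : Finset ℤ) (h : 0 < A.card) : ∃ a ∈ A, ∀ x ∈ A, a ≤ x := by
  have hne : A.Nonempty := Finset.card_pos.1 h
  exact ⟨A.min' hne, A.min'_mem hne, fun x hx => A.min'_le x hx⟩

/-- least three elements -/
theorem exists_three (A : Finset ℤ) (h : 3 ≤ A.card) :
    ∃ a ∈ A, ∃ b ∈ A, ∃ c ∈ A, a < b ∧ b < c ∧ ∀ x ∈ A, x = a ∨ x = b ∨ c ≤ x := by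
  obtain ⟨a, ha, ha'⟩ := exists_min A (by omega)
  obtain ⟨b, hb, hb'⟩ := exists_min (A.erase a) (by rw [card_erase_of_mem ha]; omega)
  have hbA : b ∈ A := mem_of_mem_erase hb
  obtain ⟨c, hc, hc'⟩ := exists_min ((A.erase a).erase b)
    (by rw [card_erase_of_mem hb, card_erase_of_mem ha]; omega)
  have hcA : c ∈ A := mem_of_mem_erase (mem_of_mem_erase hc)
  refine ⟨a, ha, b, hbA, c, hcA, ?_, ?_, ?_⟩
  · exact lt_of_le_of_ne (ha' b hbA) (ne_of_mem_erase hb).symm
  · exact lt_of_le_of_ne (hb' c (mem_of_mem_erase hc)) (ne_of_mem_erase hc).symm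
  · intro x hx
    by_cases h1 : x = a
    · exact Or.inl h1
    by_cases h2 : x = b
    · exact Or.inr (Or.inl h2)
    exact Or.inr (Or.inr (hc' x (mem_erase.2 ⟨h2, mem_erase.2 ⟨h1, hx⟩⟩)))

/-- sets with at least four elements -/
theorem four (A : Finset ℤ) (h : 4 ≤ A.card) : ∃ w : ℕ → ℤ, (∀ n, w n ∈ A) ∧ CubeFree w := by
  obtain ⟨a, ha, b, hb, c, hc, hab, hbc, hall⟩ := exists_three A (by omega)
  by_cases h1 : a + c = 2 * b
  · -- there is a fourth element
    have : ∃ e ∈ A, e ≠ a ∧ e ≠ b ∧ e ≠ c := by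
      by_contra hno
      push Not at hno
      have hsub : A ⊆ {a, b, c} := by
        intro x hx
        simp only [mem_insert, mem_singleton]
        by_cases x1 : x = a
        · exact Or.inl x1
        by_cases x2 : x = b
        · exact Or.inr (Or.inl x2)
        exact Or.inr (Or.inr (hno x hx x1 x2))
      have := card_le_card hsub
      have h3 : ({a, b, c} : Finset ℤ).card ≤ 3 := card_le_three
      omega
    obtain ⟨e, he, e1, e2, e3⟩ := this
    have hce : c < e := by
      rcases hall e he with h | h | h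
      · exact absurd h e1
      · exact absurd h e2
      · exact lt_of_le_of_ne h (Ne.symm e3)
    exact set_of_triple A a b e ha hb he hab (by omega) (by omega)
  · exact set_of_triple A a b c ha hb hc hab hbc h1

set_option synthInstance.maxSize 100000 in
/-- binary words of length ten contain an abelian cube -/
theorem binary : ∀ b0 < 2, ∀ b1 < 2, ∀ b2 < 2, ∀ b3 < 2, ∀ b4 < 2, ∀ b5 < 2, ∀ b6 < 2, ∀ b7 < 2,
    ∀ b8 < 2, ∀ b9 < 2, ∃ p < 8, ∃ L < 4, 0 < L ∧ p + 3 * L ≤ 10 ∧
      (∑ k ∈ range L, [b0, b1, b2, b3, b4, b5, b6, b7, b8, b9].getD (p + k) 0) =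
        (∑ k ∈ range L, [b0, b1, b2, b3, b4, b5, b6, b7, b8, b9].getD (p + L + k) 0) ∧
      (∑ k ∈ range L, [b0, b1, b2, b3, b4, b5, b6, b7, b8, b9].getD (p + L + k) 0) =
        (∑ k ∈ range L, [b0, b1, b2, b3, b4, b5, b6, b7, b8, b9].getD (p + 2 * L + k) 0) := by
  decide +kernel

/-- over two letters additive cubes cannot be avoided -/
theorem two_letters (a b : ℤ) (w : ℕ → ℤ) (hw : ∀ n, w n = a ∨ w n = b) : ¬ CubeFree w := by
  intro hcf
  set c : ℕ → ℕ := fun n => if w n = a then 1 else 0 with hc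
  have hc2 : ∀ n, c n < 2 := by
    intro n; simp only [hc]; split_ifs <;> norm_num
  have hwc : ∀ n, w n = b + (a - b) * c n := by
    intro n
    simp only [hc]
    by_cases h : w n = a
    · simp [h]
    · have h2 := (hw n).resolve_left h
      rw [if_neg h, h2]
      simp
  obtain ⟨p, _, L, _, hL0, hpL, e1, e2⟩ := binary (c 0) (hc2 0) (c 1) (hc2 1) (c 2) (hc2 2)
    (c 3) (hc2 3) (c 4) (hc2 4) (c 5) (hc2 5) (c 6) (hc2 6) (c 7) (hc2 7) (c 8) (hc2 8)
    (c 9) (hc2 9)
  have hg : ∀ i < 10, [c 0, c 1, c 2, c 3, c 4, c 5, c 6, c 7, c 8, c 9].getD i 0 = c i := by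
    intro i hi
    interval_cases i <;> rfl
  have s : ∀ q, q + L ≤ 10 →
      (∑ k ∈ range L, [c 0, c 1, c 2, c 3, c 4, c 5, c 6, c 7, c 8, c 9].getD (q + k) 0) =
        ∑ k ∈ range L, c (q + k) := by
    intro q hq
    refine sum_congr rfl fun k hk => ?_
    rw [mem_range] at hk
    exact hg _ (by omega)
  rw [s p (by omega), s (p + L) (by omega)] at e1
  rw [s (p + L) (by omega), s (p + 2 * L) (by omega)] at e2
  have t : ∀ q, (∑ k ∈ range L, w (q + k)) = L * b + (a - b) * ((∑ k ∈ range L, c (q + k) : ℕ) : ℤ) := by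
    intro q
    rw [sum_congr rfl fun k _ => hwc (q + k), sum_add_distrib, ← mul_sum]
    simp
  apply hcf p L hL0
  rw [t, t, t, e1, e2]
  exact ⟨rfl, rfl⟩

/-- a finite set of at most two integers does not suffice -/
theorem card_le_two_not (A : Finset ℤ) (h : A.card ≤ 2) (w : ℕ → ℤ) (hw : ∀ n, w n ∈ A) :
    ¬ CubeFree w := by
  have hpos : 0 < A.card := card_pos.2 ⟨w 0, hw 0⟩
  have : ∃ a b : ℤ, ∀ x ∈ A, x = a ∨ x = b := by
    rcases (show A.card = 1 ∨ A.card = 2 by omega) with h1 | h2
    · obtain ⟨a, rfl⟩ := card_eq_one.1 h1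
      exact ⟨a, a, fun x hx => Or.inl (mem_singleton.1 hx)⟩
    · obtain ⟨a, b, _, rfl⟩ := card_eq_two.1 h2
      exact ⟨a, b, fun x hx => by simpa using hx⟩
  obtain ⟨a, b, hab⟩ := this
  exact two_letters a b w (fun n => hab _ (hw n))

end Pool.Agent.Helper776.Assemble
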