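import Pool.Agent.Helper776.Cert

set_option autoImplicit false

/-!
An infinite word over {0,1,2,3} without additive cubes.
-/

namespace Pool.Agent.Helper776.B0123

open Pool.Agent.Helper776 Pool.Agent.Helper776.Dekking

/-- packed letters of the images (3 bits each, least significant first) -/
def gcode (a : ℕ) : ℕ :=
    if a = 0 then 766695058480507748416 else
    if a = 1 then 766695058480507696795 else
    if a = 2 then 766695058491503883931 else
    766736501369677362843

/-- packed prefix sums of the images (8 bits each) -/
def pcode (a : ℕ) : ℕ :=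
    if a = 0 then 126009546885764912814981646892898715471064945299560343797760 else
    if a = 1 then 195328442912623316857968246954674357148493309739444107346688 else
    if a = 2 then 264647338939481720900954847016449685690448267367483806450432 else
    333966234966340079991607924968178807966940169513908792853248

/-- the letter at place r of the image of a -/
def G (a r : ℕ) : ℕ := (gcode a >>> (3 * r)) % 8

/-- prefix sums of images -/
def p (a r : ℕ) : ℕ := (pcode a >>> (8 * r)) % 256

/-- weights of the base letters -/
def w (a : ℕ) : ℕ :=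
    if a = 0 then 0 else
    if a = 1 then 1 else
    if a = 2 then 2 else
    3

def mask : ℕ := 3734351455185647198163992386847024915370956324858860403647647652931427342492681

def M : ℕ := 97268396096186647833512777108882467116567709942062192684337087218923463436202663347384571675526517969023947774176942518643488682934454700123360195675308054859819260719817824714241228590612134941848686759679361442923803424625543547209586859305896312628920408910660918027964811848450030976466746522109322339790181114889

theorem c0 : ∀ a < 4, p a 0 = 0 := by decide +kernel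
theorem cL : ∀ a < 4, p a 24 = 20 + 11 * w a := by decide +kernel
theorem cs : ∀ a < 4, ∀ r < 24, p a (r + 1) = p a r + G a r := by decide +kernel
theorem cm : ∀ a < 4, ∀ r < 24, mask.testBit (Cert.cls 24 11 13 p a r) = true := by
  decide +kernel
theorem cM : ∀ e < 4 * (24 * 11), M.testBit e = mask.testBit (e % (24 * 11)) := by
  decide +kernel
theorem cA : ∀ d < 24 * 11, 0 < d →
    (mask &&& (M >>> d) &&& (M >>> (2 * d)) &&& (M >>> (3 * d))) = 0 := by decide +kernel
set_option synthInstance.maxSize 100000 in
theorem ct : ∀ r < 24, ∀ a0 < 4, ∀ a1 < 4, ∀ a2 < 4, ∀ a3 < 4,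
    (p a0 r % 11 = p a1 r % 11 ∧ p a1 r % 11 = p a2 r % 11 ∧
      p a2 r % 11 = p a3 r % 11) →
    ((p a0 r = p a1 r ∧ p a1 r = p a2 r ∧ p a2 r = p a3 r) ∨
     (p a0 r + 11 * w a1 = p a1 r + 11 * w a0 ∧ p a1 r + 11 * w a2 = p a2 r + 11 * w a1 ∧
      p a2 r + 11 * w a3 = p a3 r + 11 * w a2)) := by decide +kernel

theorem descent (x : ℕ → ℕ) (hx : ∀ i, x i < 4) (y : ℕ → ℕ)
    (hy : ∀ m r, r < 24 → y (24 * m + r) = G (x m) r)
    (n0 k : ℕ) (h : IsCube (fun i => (y i : ℤ)) n0 k) :
    ∃ m q, k = 24 * q ∧ IsCube (fun i => (w (x i) : ℤ)) m q :=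
  Cert.uniform_descent 4 24 11 20 13 w G p mask M (by norm_num) (by norm_num)
    (by norm_num) (by norm_num) c0 cL cs cm cM cA ct x hx y hy n0 k h

/-- index of a letter value -/
def ix (v : ℕ) : ℕ := if v = 0 then 0 else if v = 1 then 1 else if v = 2 then 2 else 3

theorem ix_w : ∀ a < 4, ∀ r < 24, w (ix (G a r)) = G a r := by decide +kernel

theorem ix_lt (v : ℕ) : ix v < 4 := by unfold ix; split_ifs <;> norm_num

/-- the fixed point, as a word of letter indices -/
def x : ℕ → ℕ
  | 0 => 0
  | (n + 1) => ix (G (x ((n + 1) / 24)) ((n + 1) % 24))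
decreasing_by omega

theorem x_eq (n : ℕ) : x n = ix (G (x (n / 24)) (n % 24)) := by
  cases n with
  | zero =>
    have h : ix (G 0 0) = 0 := by decide +kernel
    simp [x, h]
  | succ n => rw [x]

theorem x_lt (n : ℕ) : x n < 4 := by rw [x_eq]; exact ix_lt _

/-- the fixed point, as a word of letter values -/
def y (n : ℕ) : ℕ := w (x n)

theorem y_at (m r : ℕ) (hr : r < 24) : y (24 * m + r) = G (x m) r := by
  have h1 : (24 * m + r) / 24 = m := by omega
  have h2 : (24 * m + r) % 24 = r := by omega
  unfold y
  rw [x_eq, h1, h2]
  exact ix_w _ (x_lt m) r hr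

theorem no_cube (k : ℕ) : ∀ n, 0 < k → ¬ IsCube (fun i => (y i : ℤ)) n k := by
  induction k using Nat.strong_induction_on with
  | _ k ih =>
    intro n hk h
    obtain ⟨m, q, rfl, hq⟩ := descent x x_lt y y_at n k h
    exact ih q (by omega) m (by omega) hq

theorem y_mem (n : ℕ) : y n = 0 ∨ y n = 1 ∨ y n = 2 ∨ y n = 3 := by
  unfold y w
  have := x_lt n
  split_ifs <;> simp

end Pool.Agent.Helper776.B0123
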