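import Pool.Agent.Helper776.Dekking

set_option autoImplicit false

/-!
An infinite word over {0,1,3,4} without additive cubes, fixed point of an 18-uniform morphism.
-/

namespace Pool.Agent.Helper776.Base

open Pool.Agent.Helper776.Dekking

/-- letter values -/
def sv (a : ℕ) : ℕ := if a = 0 then 0 else if a = 1 then 1 else if a = 2 then 3 else 4

/-- packed images of the morphism (indices of letters, base 4, least significant first) -/
def code (a : ℕ) : ℕ :=
  if a = 0 then 40857780620 else if a = 1 then 40859681164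
  else if a = 2 then 40857943775 else 40859844319

/-- packed prefix sums, base 64 -/
def pcode (a : ℕ) : ℕ :=
  if a = 0 then 7237194596856942435656510662000640
  else if a = 1 then 9544882089539085632405731147792384
  else if a = 2 then 14160257074903379272830124581748992
  else 16467944567585522469579345067540736

/-- the letter (index) at place r of the image of a -/
def phi (a r : ℕ) : ℕ := (code a >>> (2 * r)) % 4

/-- prefix sums of images -/
def p (a r : ℕ) : ℕ := (pcode a >>> (6 * r)) % 64

def cls (a r : ℕ) : ℕ := (18 * p a r + (126 - r)) % 126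

/-- bitmask of the classes -/
def mask : ℕ := (List.range 4).foldl (fun acc a => (List.range 18).foldl
  (fun acc r => acc ||| (1 <<< cls a r)) acc) 0

theorem p_zero : ∀ a < 4, p a 0 = 0 := by decide +kernel

theorem p_succ : ∀ a < 4, ∀ r < 18, p a (r + 1) = p a r + sv (phi a r) := by decide +kernel

theorem p_top : ∀ a < 4, p a 18 = 22 + 7 * sv a := by decide +kernel

theorem phi_zero : phi 0 0 = 0 := by decide +kernel

theorem phi_lt (a r : ℕ) : phi a r < 4 := Nat.mod_lt _ (by norm_num)

theorem memb : ∀ a < 4, ∀ r < 18, mask.testBit (cls a r) = true := by decide +kernel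

set_option synthInstance.maxSize 100000 in
theorem apfree : ∀ a0 < 4, ∀ r0 < 18, ∀ a1 < 4, ∀ r1 < 18, cls a0 r0 ≠ cls a1 r1 →
    ¬ (mask.testBit ((2 * cls a1 r1 + 126 - cls a0 r0) % 126) = true ∧
       mask.testBit ((3 * cls a1 r1 + 252 - 2 * cls a0 r0) % 126) = true) := by decide +kernel

set_option synthInstance.maxSize 100000 in
theorem types : ∀ r < 18, ∀ a0 < 4, ∀ a1 < 4, ∀ a2 < 4, ∀ a3 < 4,
    (p a0 r % 7 = p a1 r % 7 ∧ p a1 r % 7 = p a2 r % 7 ∧ p a2 r % 7 = p a3 r % 7) →
    ((p a0 r = p a1 r ∧ p a1 r = p a2 r ∧ p a2 r = p a3 r) ∨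
     (p a0 r + 7 * sv a1 = p a1 r + 7 * sv a0 ∧ p a1 r + 7 * sv a2 = p a2 r + 7 * sv a1 ∧
      p a2 r + 7 * sv a3 = p a3 r + 7 * sv a2)) := by decide +kernel

/-- the fixed point, as a word of indices -/
def x : ℕ → ℕ
  | 0 => 0
  | (n + 1) => phi (x ((n + 1) / 18)) ((n + 1) % 18)
decreasing_by omega

theorem x_eq (n : ℕ) : x n = phi (x (n / 18)) (n % 18) := by
  cases n with
  | zero => simp [x, phi_zero]
  | succ n => rw [x]

theorem x_lt (n : ℕ) : x n < 4 := by
  rw [x_eq]; exact phi_lt _ _

/-- index as an element of Fin 4 -/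
def xf (n : ℕ) : Fin 4 := ⟨x n, x_lt n⟩

/-- letter values of the fixed point -/
def xs (n : ℕ) : ℤ := (sv (x n) : ℤ)

theorem step (n k : ℕ) (h : IsCube xs n k) :
    ∃ m q, k = 18 * q ∧ IsCube xs m q := by
  have key := descend (ι := Fin 4) (V := ℤ) 18 (by norm_num) xf (fun a => (sv a : ℤ))
    (fun a r => (sv (phi a r) : ℤ)) (fun a r => (p a r : ℤ)) 7 22
    (fun a => by simpa using p_zero a a.2)
    (fun a r hr => by
      have := p_succ a a.2 r hr
      push_cast [this]; ring)
    (fun a => by
      have := p_top a a.2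
      push_cast [this]; simp; ring)
    xs
    (fun m r hr => by
      simp only [xs, xf]
      rw [x_eq]
      have h1 : (18 * m + r) / 18 = m := by omega
      have h2 : (18 * m + r) % 18 = r := by omega
      rw [h1, h2])
    (fun z hz => by
      have : z * 7 = 0 := by simpa using hz
      omega)
    126 (-1) (AddMonoidHom.mulLeft 18) (by simp) (by simp)
    (by
      intro a0 a1 a2 a3 r0 r1 r2 r3 h0 h1 h2 h3 d1 d2
      simp only [AddMonoidHom.coe_mulLeft] at d1 d2
      have m0 := memb a0 a0.2 r0 h0
      have m1 := memb a1 a1.2 r1 h1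
      have m2 := memb a2 a2.2 r2 h2
      have m3 := memb a3 a3.2 r3 h3
      have e0 : cls a0 r0 = (18 * p a0 r0 + (126 - r0)) % 126 := rfl
      have e1 : cls a1 r1 = (18 * p a1 r1 + (126 - r1)) % 126 := rfl
      have e2 : cls a2 r2 = (18 * p a2 r2 + (126 - r2)) % 126 := rfl
      have e3 : cls a3 r3 = (18 * p a3 r3 + (126 - r3)) % 126 := rfl
      have c2 : cls a2 r2 = (2 * cls a1 r1 + 126 - cls a0 r0) % 126 := by
        omega
      have c3 : cls a3 r3 = (3 * cls a1 r1 + 252 - 2 * cls a0 r0) % 126 := by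
        omega
      have eq01 : cls a0 r0 = cls a1 r1 := by
        by_contra hne
        exact apfree a0 a0.2 r0 h0 a1 a1.2 r1 h1 hne ⟨c2 ▸ m2, c3 ▸ m3⟩
      have hr01 : r0 = r1 := by omega
      have hr12 : r1 = r2 := by omega
      have hr23 : r2 = r3 := by omega
      subst hr01 hr12 hr23
      refine ⟨⟨rfl, rfl, rfl⟩, ?_⟩
      have t := types r0 h0 a0 a0.2 a1 a1.2 a2 a2.2 a3 a3.2 ⟨by omega, by omega, by omega⟩
      simp only [smul_eq_mul]
      omega)
    n k h
  exact key

/-- The fixed point has no additive cubes. -/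
theorem no_cube (k : ℕ) : ∀ n, 0 < k → ¬ IsCube xs n k := by
  induction k using Nat.strong_induction_on with
  | _ k ih =>
    intro n hk h
    obtain ⟨m, q, rfl, hq⟩ := step n k h
    exact ih q (by omega) m (by omega) hq

end Pool.Agent.Helper776.Base
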