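import Pool.Agent.Helper776.Dekking

set_option autoImplicit false

/-!
A checkable certificate for the descent property of a uniform map with integer letters.
-/

namespace Pool.Agent.Helper776.Cert

open Pool.Agent.Helper776.Dekking

/-- class of a boundary -/
def cls (L al ta : ℕ) (p : ℕ → ℕ → ℕ) (a r : ℕ) : ℕ := (L * p a r + ta * r) % (L * al)

/-- no four term progressions with nonzero difference among the bits of the mask modulo N -/
theorem apfree (N mask M : ℕ)
    (hM : ∀ e < 4 * N, M.testBit e = mask.testBit (e % N))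
    (hA : ∀ d < N, 0 < d → (mask &&& (M >>> d) &&& (M >>> (2 * d)) &&& (M >>> (3 * d))) = 0)
    (c d : ℕ) (hc : c < N) (hd : d < N) (hd0 : 0 < d)
    (b0 : mask.testBit c = true) (b1 : mask.testBit ((c + d) % N) = true)
    (b2 : mask.testBit ((c + 2 * d) % N) = true) (b3 : mask.testBit ((c + 3 * d) % N) = true) :
    False := by
  have h := hA d hd hd0
  have h' := congrArg (fun t => t.testBit c) h
  simp only [Nat.testBit_and, Nat.testBit_shiftRight, Nat.zero_testBit] at h'
  rw [hM (d + c) (by omega), hM (2 * d + c) (by omega), hM (3 * d + c) (by omega),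
    Nat.add_comm d c, Nat.add_comm (2 * d) c, Nat.add_comm (3 * d) c, b0, b1, b2, b3] at h'
  simp at h'

theorem uniform_descent (n L al be ta : ℕ) (w : ℕ → ℕ) (G p : ℕ → ℕ → ℕ) (mask M : ℕ)
    (hL : 0 < L) (hal : 0 < al) (hbe : al ∣ be + ta) (hco : Nat.Coprime ta L)
    (h0 : ∀ a < n, p a 0 = 0) (hLt : ∀ a < n, p a L = be + al * w a)
    (hs : ∀ a < n, ∀ r < L, p a (r + 1) = p a r + G a r)
    (hmem : ∀ a < n, ∀ r < L, mask.testBit (cls L al ta p a r) = true)
    (hM : ∀ e < 4 * (L * al), M.testBit e = mask.testBit (e % (L * al)))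
    (hA : ∀ d < L * al, 0 < d →
      (mask &&& (M >>> d) &&& (M >>> (2 * d)) &&& (M >>> (3 * d))) = 0)
    (hty : ∀ r < L, ∀ a0 < n, ∀ a1 < n, ∀ a2 < n, ∀ a3 < n,
      (p a0 r % al = p a1 r % al ∧ p a1 r % al = p a2 r % al ∧ p a2 r % al = p a3 r % al) →
      ((p a0 r = p a1 r ∧ p a1 r = p a2 r ∧ p a2 r = p a3 r) ∨
       (p a0 r + al * w a1 = p a1 r + al * w a0 ∧ p a1 r + al * w a2 = p a2 r + al * w a1 ∧
        p a2 r + al * w a3 = p a3 r + al * w a2)))
    (x : ℕ → ℕ) (hx : ∀ i, x i < n) (y : ℕ → ℕ)
    (hy : ∀ m r, r < L → y (L * m + r) = G (x m) r)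
    (n0 k : ℕ) (h : IsCube (fun i => (y i : ℤ)) n0 k) :
    ∃ m q, k = L * q ∧ IsCube (fun i => (w (x i) : ℤ)) m q := by
  have hN : 0 < L * al := Nat.mul_pos hL hal
  have key := descend (ι := Fin n) (V := ℤ) L hL (fun i => (⟨x i, hx i⟩ : Fin n))
    (fun a => (w a : ℤ)) (fun a r => (G a r : ℤ)) (fun a r => (p a r : ℤ)) (al : ℤ) (be : ℤ)
    (fun a => by simp [h0 a a.2])
    (fun a r hr => by simp [hs a a.2 r hr])
    (fun a => by simp [hLt a a.2]; ring)
    (fun i => (y i : ℤ))
    (fun m r hr => by simp [hy m r hr])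
    (fun z hz => by
      have : z * (al : ℤ) = 0 := by simpa using hz
      rcases mul_eq_zero.1 this with h | h
      · exact h
      · have : (al : ℤ) ≠ 0 := by exact_mod_cast hal.ne'
        exact absurd h this)
    ((L * al : ℕ) : ℤ) (ta : ℤ) (AddMonoidHom.mulLeft (L : ℤ))
    (by simp)
    (by
      simp only [AddMonoidHom.coe_mulLeft]
      obtain ⟨c, hc⟩ := hbe
      refine ⟨c, ?_⟩
      push_cast
      have : (be : ℤ) + ta = al * c := by exact_mod_cast hc
      linear_combination (L : ℤ) * this)
    (by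
      intro a0 a1 a2 a3 r0 r1 r2 r3 q0 q1 q2 q3 d1 d2
      simp only [AddMonoidHom.coe_mulLeft] at d1 d2
      set N := L * al with hNdef
      -- classes
      set C0 := cls L al ta p a0 r0 with hC0
      set C1 := cls L al ta p a1 r1 with hC1
      set C2 := cls L al ta p a2 r2 with hC2
      set C3 := cls L al ta p a3 r3 with hC3
      have lt0 : C0 < N := Nat.mod_lt _ hN
      have lt1 : C1 < N := Nat.mod_lt _ hN
      have lt2 : C2 < N := Nat.mod_lt _ hN
      have lt3 : C3 < N := Nat.mod_lt _ hN
      have cast : ∀ (a r : ℕ), ((cls L al ta p a r : ℕ) : ZMod N) =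
          ((L : ZMod N) * (p a r : ZMod N) + (ta : ZMod N) * (r : ZMod N)) := by
        intro a r
        have : ((cls L al ta p a r : ℕ) : ZMod N) = ((L * p a r + ta * r : ℕ) : ZMod N) := by
          rw [ZMod.natCast_eq_natCast_iff]
          exact Nat.mod_modEq _ _
        rw [this]; push_cast; ring
      have z1 : ((C0 : ℕ) : ZMod N) - 2 * (C1 : ZMod N) + (C2 : ZMod N) = 0 := by
        have := (ZMod.intCast_zmod_eq_zero_iff_dvd _ N).2 d1
        rw [hC0, hC1, hC2, cast, cast, cast]
        push_cast at this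
        linear_combination this
      have z2 : ((C1 : ℕ) : ZMod N) - 2 * (C2 : ZMod N) + (C3 : ZMod N) = 0 := by
        have := (ZMod.intCast_zmod_eq_zero_iff_dvd _ N).2 d2
        rw [hC1, hC2, hC3, cast, cast, cast]
        push_cast at this
        linear_combination this
      set d := (C1 + N - C0) % N with hd
      have hdN : d < N := Nat.mod_lt _ hN
      have zd : (d : ZMod N) = (C1 : ZMod N) - (C0 : ZMod N) := by
        have : ((d : ℕ) : ZMod N) = ((C1 + N - C0 : ℕ) : ZMod N) := by
          rw [ZMod.natCast_eq_natCast_iff]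
          exact Nat.mod_modEq _ _
        rw [this, Nat.cast_sub (by omega)]
        push_cast
        simp
      have E : ∀ (C j : ℕ), C < N → (C : ZMod N) = (C0 : ZMod N) + j * (d : ZMod N) →
          C = (C0 + j * d) % N := by
        intro C j hC hz
        have : ((C : ℕ) : ZMod N) = ((C0 + j * d : ℕ) : ZMod N) := by
          rw [hz]; push_cast; ring
        rw [ZMod.natCast_eq_natCast_iff] at this
        rw [← Nat.mod_eq_of_lt hC]
        exact this
      have e1 : C1 = (C0 + 1 * d) % N := E C1 1 lt1 (by rw [zd]; push_cast; ring)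
      have e2 : C2 = (C0 + 2 * d) % N := E C2 2 lt2 (by
        rw [zd]; push_cast; linear_combination z1)
      have e3 : C3 = (C0 + 3 * d) % N := E C3 3 lt3 (by
        rw [zd]; push_cast; linear_combination z2 + 2 * z1)
      have hd0 : d = 0 := by
        by_contra hne
        have hpos : 0 < d := Nat.pos_of_ne_zero hne
        have m0 := hmem a0 a0.2 r0 q0
        have m1 := hmem a1 a1.2 r1 q1
        have m2 := hmem a2 a2.2 r2 q2
        have m3 := hmem a3 a3.2 r3 q3
        rw [← hC0] at m0
        rw [← hC1, e1, one_mul] at m1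
        rw [← hC2, e2] at m2
        rw [← hC3, e3] at m3
        exact apfree N mask M hM hA C0 d lt0 hdN hpos m0 m1 m2 m3
      rw [hd0] at e1 e2 e3
      simp only [mul_zero, add_zero, Nat.mod_eq_of_lt lt0] at e1 e2 e3
      -- same place
      have place : ∀ (a b r t : ℕ), r < L → t < L →
          cls L al ta p a r = cls L al ta p b t → r = t := by
        intro a b r t hr ht hc
        have h1 : (L * p a r + ta * r) ≡ (L * p b t + ta * t) [MOD L * al] := hc
        have h2 := h1.of_mul_right al
        have h3 : ta * r ≡ ta * t [MOD L] := by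
          have u1 : L * p a r + ta * r ≡ ta * r [MOD L] := by
            unfold Nat.ModEq; simp
          have u2 : L * p b t + ta * t ≡ ta * t [MOD L] := by
            unfold Nat.ModEq; simp
          exact u1.symm.trans (h2.trans u2)
        have h4 := Nat.ModEq.cancel_left_of_coprime (by
          rw [Nat.gcd_comm]; exact hco) h3
        unfold Nat.ModEq at h4
        rwa [Nat.mod_eq_of_lt hr, Nat.mod_eq_of_lt ht] at h4
      have s01 : r0 = r1 := place a0 a1 r0 r1 q0 q1 e1.symm
      have s12 : r1 = r2 := place a1 a2 r1 r2 q1 q2 (e1.trans e2.symm)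
      have s23 : r2 = r3 := place a2 a3 r2 r3 q2 q3 (e2.trans e3.symm)
      subst s01 s12 s23
      refine ⟨⟨rfl, rfl, rfl⟩, ?_⟩
      have pm : ∀ (a b : ℕ), cls L al ta p a r0 = cls L al ta p b r0 →
          p a r0 % al = p b r0 % al := by
        intro a b hc
        have h1 : (L * p a r0 + ta * r0) ≡ (L * p b r0 + ta * r0) [MOD L * al] := hc
        have h2 := Nat.ModEq.add_right_cancel' _ h1
        exact Nat.ModEq.mul_left_cancel' hL.ne' h2
      have t := hty r0 q0 a0 a0.2 a1 a1.2 a2 a2.2 a3 a3.2
        ⟨pm _ _ e1.symm, pm _ _ (e1.trans e2.symm), pm _ _ (e2.trans e3.symm)⟩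
      simp only [smul_eq_mul]
      rcases t with ⟨t1, t2, t3⟩ | ⟨t1, t2, t3⟩
      · left
        exact ⟨by exact_mod_cast t1, by exact_mod_cast t2, by exact_mod_cast t3⟩
      · right
        have t1' : (p a0 r0 : ℤ) + al * w a1 = p a1 r0 + al * w a0 := by exact_mod_cast t1
        have t2' : (p a1 r0 : ℤ) + al * w a2 = p a2 r0 + al * w a1 := by exact_mod_cast t2
        have t3' : (p a2 r0 : ℤ) + al * w a3 = p a3 r0 + al * w a2 := by exact_mod_cast t3
        refine ⟨by linear_combination t1', by linear_combination t2', by linear_combination t3'⟩)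
    n0 k h
  exact key

end Pool.Agent.Helper776.Cert
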