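import Pool.Agent.Helper776.Assemble
import Pool.Agent.Helper776.T012

set_option autoImplicit false

/-!
Additive cubes are avoidable over every set of at least three integers.
-/

namespace Pool.Agent.Helper776.Complete

open Finset Pool.Agent.Helper776.Assemble

theorem good12 : Good 1 2 := good_of 1 2 T012.y T012.y_mem (fun n k hk => T012.no_cube k n hk)

/-- Every three integers `a < b < c` carry an infinite word without additive cubes. -/
theorem triple_full (a b c : ℤ) (hab : a < b) (hbc : b < c) :
    ∃ w : ℕ → ℤ, (∀ n, w n = a ∨ w n = b ∨ w n = c) ∧ CubeFree w := by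
  by_cases h : a + c = 2 * b
  · obtain ⟨w, hw, hc⟩ := good12.transport a (b - a) (by omega)
    refine ⟨w, fun n => ?_, hc⟩
    have e1 : a + (b - a) * ((1 : ℕ) : ℤ) = b := by push_cast; ring
    have e2 : a + (b - a) * ((2 : ℕ) : ℤ) = c := by push_cast; linarith
    rcases hw n with h | h | h
    · left; exact h
    · right; left; rw [h, e1]
    · right; right; rw [h, e2]
  · exact triple a b c hab hbc h

theorem set_full (A : Finset ℤ) (h : 3 ≤ A.card) : ∃ w : ℕ → ℤ, (∀ n, w n ∈ A) ∧ CubeFree w := by
  obtain ⟨a, ha, b, hb, c, hc, hab, hbc, -⟩ := exists_three A h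
  obtain ⟨w, hw, hcf⟩ := triple_full a b c hab hbc
  refine ⟨w, fun n => ?_, hcf⟩
  rcases hw n with h | h | h <;> rw [h] <;> assumption

end Pool.Agent.Helper776.Complete
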