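import Mathlib

set_option autoImplicit false

/-!
Dekking style descent for uniform substitutions: general lemma.
-/

namespace Pool.Agent.Helper776.Dekking

open Finset

/-- Prefix sums of a sequence. -/
def S {V : Type*} [AddCommMonoid V] (y : ℕ → V) (n : ℕ) : V := ∑ k ∈ range n, y k

/-- Three adjacent blocks of length `k` starting at `n` have equal sums. -/
def IsCube {V : Type*} [AddCommGroup V] (y : ℕ → V) (n k : ℕ) : Prop :=
  S y n - 2 • S y (n + k) + S y (n + 2 * k) = 0 ∧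
  S y (n + k) - 2 • S y (n + 2 * k) + S y (n + 3 * k) = 0

theorem S_succ {V : Type*} [AddCommMonoid V] (y : ℕ → V) (n : ℕ) : S y (n + 1) = S y n + y n := by
  simp [S, sum_range_succ]

theorem S_add {V : Type*} [AddCommMonoid V] (y : ℕ → V) (n k : ℕ) :
    S y (n + k) = S y n + ∑ j ∈ range k, y (n + j) := by
  simp [S, sum_range_add]

/-- Prefix sums of a uniform image. -/
theorem S_image {ι V : Type*} [AddCommGroup V] (L : ℕ) (_hL : 0 < L) (x : ℕ → ι) (s : ι → ℤ)
    (G : ι → ℕ → V) (P : ι → ℕ → V) (α β : V)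
    (hP0 : ∀ a, P a 0 = 0) (hP : ∀ a r, r < L → P a (r + 1) = P a r + G a r)
    (hPL : ∀ a, P a L = β + s a • α) (y : ℕ → V) (hy : ∀ m r, r < L → y (L * m + r) = G (x m) r)
    (m r : ℕ) (hr : r ≤ L) :
    S y (L * m + r) = m • β + (S (fun i => s (x i)) m) • α + P (x m) r := by
  have inner : ∀ m, S y (L * m) = m • β + (S (fun i => s (x i)) m) • α →
      ∀ r, r ≤ L → S y (L * m + r) = m • β + (S (fun i => s (x i)) m) • α + P (x m) r := by
    intro m hm r
    induction r with
    | zero => intro _; simp [hm, hP0]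
    | succ r ih =>
      intro hr
      have h1 := ih (by omega)
      rw [← Nat.add_assoc, S_succ, h1, hy m r (by omega), hP _ _ (by omega)]
      abel
  have base : ∀ m, S y (L * m) = m • β + (S (fun i => s (x i)) m) • α := by
    intro m
    induction m with
    | zero => simp [S]
    | succ m ih =>
      have h1 := inner m ih L (le_refl L)
      rw [Nat.mul_succ, h1, S_succ, hPL, add_smul, add_smul, one_smul]
      abel
  exact inner m (base m) r hr

/-- Descent lemma. -/
theorem descend {ι V : Type*} [AddCommGroup V] (L : ℕ) (hL : 0 < L) (x : ℕ → ι) (s : ι → ℤ)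
    (G : ι → ℕ → V) (P : ι → ℕ → V) (α β : V)
    (hP0 : ∀ a, P a 0 = 0) (hP : ∀ a r, r < L → P a (r + 1) = P a r + G a r)
    (hPL : ∀ a, P a L = β + s a • α) (y : ℕ → V) (hy : ∀ m r, r < L → y (L * m + r) = G (x m) r)
    (hα : ∀ z : ℤ, z • α = 0 → z = 0)
    (N τ : ℤ) (f : V →+ ℤ) (hfα : N ∣ f α) (hfβ : N ∣ L * τ + f β)
    (hcheck : ∀ (a0 a1 a2 a3 : ι) (r0 r1 r2 r3 : ℕ), r0 < L → r1 < L → r2 < L → r3 < L →
      N ∣ (r0 * τ + f (P a0 r0)) - 2 * (r1 * τ + f (P a1 r1)) + (r2 * τ + f (P a2 r2)) →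
      N ∣ (r1 * τ + f (P a1 r1)) - 2 * (r2 * τ + f (P a2 r2)) + (r3 * τ + f (P a3 r3)) →
      (r0 = r1 ∧ r1 = r2 ∧ r2 = r3) ∧
      ((P a0 r0 = P a1 r0 ∧ P a1 r0 = P a2 r0 ∧ P a2 r0 = P a3 r0) ∨
       (P a0 r0 - s a0 • α = P a1 r0 - s a1 • α ∧ P a1 r0 - s a1 • α = P a2 r0 - s a2 • α ∧
        P a2 r0 - s a2 • α = P a3 r0 - s a3 • α)))
    (n k : ℕ) (h : IsCube y n k) :
    ∃ m q, k = L * q ∧ IsCube (fun i => s (x i)) m q := by
  obtain ⟨h1, h2⟩ := h
  -- decomposition of positions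
  have dec : ∀ t : ℕ, S y t = (t / L) • β + (S (fun i => s (x i)) (t / L)) • α
      + P (x (t / L)) (t % L) := by
    intro t
    have := S_image L hL x s G P α β hP0 hP hPL y hy (t / L) (t % L) (Nat.mod_lt _ hL).le
    rwa [Nat.div_add_mod] at this
  have cls : ∀ t : ℕ, N ∣ ((t : ℤ) * τ + f (S y t)) -
      (((t % L : ℕ) : ℤ) * τ + f (P (x (t / L)) (t % L))) := by
    intro t
    have e1 : f (S y t) = ((t / L : ℕ) : ℤ) * f β + (S (fun i => s (x i)) (t / L)) * f α
        + f (P (x (t / L)) (t % L)) := by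
      conv_lhs => rw [dec t]
      rw [map_add, map_add, map_nsmul, map_zsmul]
      simp
    have e2 : (t : ℤ) = (L : ℤ) * ((t / L : ℕ) : ℤ) + ((t % L : ℕ) : ℤ) := by
      exact_mod_cast (Nat.div_add_mod t L).symm
    have e3 : ((t : ℤ) * τ + f (S y t)) -
      (((t % L : ℕ) : ℤ) * τ + f (P (x (t / L)) (t % L))) =
      ((t / L : ℕ) : ℤ) * (L * τ + f β) + (S (fun i => s (x i)) (t / L)) * f α := by
      rw [e1]
      linear_combination τ * e2
    rw [e3]
    exact dvd_add (Dvd.dvd.mul_left hfβ _) (Dvd.dvd.mul_left hfα _)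
  have g1 : f (S y n) - 2 * f (S y (n + k)) + f (S y (n + 2 * k)) = 0 := by
    have := congrArg f h1
    simpa [map_add, map_sub, map_nsmul] using this
  have g2 : f (S y (n + k)) - 2 * f (S y (n + 2 * k)) + f (S y (n + 3 * k)) = 0 := by
    have := congrArg f h2
    simpa [map_add, map_sub, map_nsmul] using this
  have c0 := cls n
  have c1 := cls (n + k)
  have c2 := cls (n + 2 * k)
  have c3 := cls (n + 3 * k)
  obtain ⟨d0, hd0⟩ := c0
  obtain ⟨d1, hd1⟩ := c1
  obtain ⟨d2, hd2⟩ := c2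
  obtain ⟨d3, hd3⟩ := c3
  have H := hcheck (x (n / L)) (x ((n + k) / L)) (x ((n + 2 * k) / L)) (x ((n + 3 * k) / L))
    (n % L) ((n + k) % L) ((n + 2 * k) % L) ((n + 3 * k) % L)
    (Nat.mod_lt _ hL) (Nat.mod_lt _ hL) (Nat.mod_lt _ hL) (Nat.mod_lt _ hL)
    ⟨-(d0 - 2 * d1 + d2), by
      push_cast at hd0 hd1 hd2 ⊢
      linear_combination -hd0 + 2 * hd1 - hd2 + g1⟩
    ⟨-(d1 - 2 * d2 + d3), by
      push_cast at hd1 hd2 hd3 ⊢
      linear_combination -hd1 + 2 * hd2 - hd3 + g2⟩
  obtain ⟨⟨hr1, hr2, hr3⟩, hty⟩ := H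
  -- L divides k
  have hLk : L ∣ k := by
    have : (n + 0) % L = (n + k) % L := by simpa using hr1
    have h' := (Nat.ModEq.add_left_cancel' n this)
    exact (Nat.modEq_zero_iff_dvd).1 h'.symm
  obtain ⟨q, rfl⟩ := hLk
  have q1 : (n + L * q) / L = n / L + q := by
    rw [Nat.add_mul_div_left _ _ hL]
  have q2 : (n + 2 * (L * q)) / L = n / L + 2 * q := by
    rw [show 2 * (L * q) = L * (2 * q) by ring, Nat.add_mul_div_left _ _ hL]
  have q3 : (n + 3 * (L * q)) / L = n / L + 3 * q := by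
    rw [show 3 * (L * q) = L * (3 * q) by ring, Nat.add_mul_div_left _ _ hL]
  have E0 := dec n
  have E1 := dec (n + L * q)
  have E2 := dec (n + 2 * (L * q))
  have E3 := dec (n + 3 * (L * q))
  rw [q1, ← hr1] at E1
  rw [q2, ← hr2, ← hr1] at E2
  rw [q3, ← hr3, ← hr2, ← hr1] at E3
  rw [q1, q2, q3] at hty
  set m := n / L with hm
  set r := n % L with hr
  rw [E0, E1, E2] at h1
  rw [E1, E2, E3] at h2
  set X := fun i => s (x i) with hX
  rcases hty with ⟨p1, p2, p3⟩ | ⟨p1, p2, p3⟩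
  · refine ⟨m, q, rfl, ?_, ?_⟩
    · have : (S X m - 2 • S X (m + q) + S X (m + 2 * q)) • α = 0 := by
        rw [← h1, ← p2, ← p1]
        module
      simpa using hα _ this
    · have : (S X (m + q) - 2 • S X (m + 2 * q) + S X (m + 3 * q)) • α = 0 := by
        rw [← h2, ← p3, ← p2, ← p1]
        module
      simpa using hα _ this
  · refine ⟨m + 1, q, rfl, ?_, ?_⟩
    · have : (S X (m + 1) - 2 • S X (m + 1 + q) + S X (m + 1 + 2 * q)) • α = 0 := by
        rw [← h1]
        have t1 : S X (m + 1) = S X m + s (x m) := S_succ _ _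
        have t2 : S X (m + 1 + q) = S X (m + q) + s (x (m + q)) := by
          rw [show m + 1 + q = m + q + 1 by ring, S_succ]
        have t3 : S X (m + 1 + 2 * q) = S X (m + 2 * q) + s (x (m + 2 * q)) := by
          rw [show m + 1 + 2 * q = m + 2 * q + 1 by ring, S_succ]
        rw [t1, t2, t3]
        have e0 : P (x (m + q)) r = P (x m) r - s (x m) • α + s (x (m + q)) • α := by
          rw [p1]; abel
        have e1 : P (x (m + 2 * q)) r = P (x m) r - s (x m) • α + s (x (m + 2 * q)) • α := by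
          rw [p1, p2]; abel
        rw [e0, e1]
        module
      simpa using hα _ this
    · have : (S X (m + 1 + q) - 2 • S X (m + 1 + 2 * q) + S X (m + 1 + 3 * q)) • α = 0 := by
        rw [← h2]
        have t2 : S X (m + 1 + q) = S X (m + q) + s (x (m + q)) := by
          rw [show m + 1 + q = m + q + 1 by ring, S_succ]
        have t3 : S X (m + 1 + 2 * q) = S X (m + 2 * q) + s (x (m + 2 * q)) := by
          rw [show m + 1 + 2 * q = m + 2 * q + 1 by ring, S_succ]
        have t4 : S X (m + 1 + 3 * q) = S X (m + 3 * q) + s (x (m + 3 * q)) := by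
          rw [show m + 1 + 3 * q = m + 3 * q + 1 by ring, S_succ]
        rw [t2, t3, t4]
        have e0 : P (x (m + 2 * q)) r = P (x (m + q)) r - s (x (m + q)) • α + s (x (m + 2 * q)) • α := by
          rw [p2]; abel
        have e1 : P (x (m + 3 * q)) r = P (x (m + q)) r - s (x (m + q)) • α + s (x (m + 3 * q)) • α := by
          rw [p2, p3]; abel
        rw [e0, e1]
        module
      simpa using hα _ this

end Pool.Agent.Helper776.Dekking
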