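import Pool.Agent.Helper776.Dekking

set_option autoImplicit false

/-!
Infinite words over a finite set of integers without additive squares: general criterion.

Two words (the low path and the high path) of length L with prefix sums `zp` and `zs` are given.
The image of the letter a in {0,...,M} has prefix sums
`P a r = zp r + (zs r - zp r - (M - a) * al)` (truncated subtraction).
-/

namespace Pool.Agent.Helper776.Squares

open Finset Pool.Agent.Helper776.Dekking

/-- Two adjacent blocks of length `k` starting at `n` have equal sums. -/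
def IsSq {V : Type*} [AddCommGroup V] (y : ℕ → V) (n k : ℕ) : Prop :=
  S y n - 2 • S y (n + k) + S y (n + 2 * k) = 0

/-- prefix sums of the images -/
def P (M al : ℕ) (zp zs : ℕ → ℕ) (a r : ℕ) : ℕ := zp r + (zs r - zp r - (M - a) * al)

theorem P_cases (M al : ℕ) (zp zs : ℕ → ℕ) (a r : ℕ) (h : zp r ≤ zs r) :
    P M al zp zs a r = zp r ∨ P M al zp zs a r + (M - a) * al = zs r := by
  unfold P
  rcases le_total (zs r - zp r) ((M - a) * al) with h1 | h1
  · left; omega
  · right; omega

/-- no three term progressions with nonzero difference among the bits of the mask modulo N -/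
theorem apfree3 (N mask Mk : ℕ)
    (hM : ∀ e < 3 * N, Mk.testBit e = mask.testBit (e % N))
    (hA : ∀ d < N, 0 < d → (mask &&& (Mk >>> d) &&& (Mk >>> (2 * d))) = 0)
    (c d : ℕ) (hc : c < N) (hd : d < N) (hd0 : 0 < d)
    (b0 : mask.testBit c = true) (b1 : mask.testBit ((c + d) % N) = true)
    (b2 : mask.testBit ((c + 2 * d) % N) = true) :
    False := by
  have h := hA d hd hd0
  have h' := congrArg (fun t => t.testBit c) h
  simp only [Nat.testBit_and, Nat.testBit_shiftRight, Nat.zero_testBit] at h'
  rw [hM (d + c) (by omega), hM (2 * d + c) (by omega),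
    Nat.add_comm d c, Nat.add_comm (2 * d) c, b0, b1, b2] at h'
  simp at h'

theorem no_square (L al M ta : ℕ) (zp zs : ℕ → ℕ) (mask Mk : ℕ)
    (hL : 1 < L) (hal : 0 < al) (hbe : al ∣ zp L + ta) (hco : Nat.Coprime ta L)
    (h0 : zp 0 = 0) (h0' : zs 0 = 0) (hLt : zs L = zp L + M * al)
    (hle : ∀ r ≤ L, zp r ≤ zs r)
    (hp : ∀ r < L, zp r ≤ zp (r + 1))
    (hd : ∀ r < L, zs r - zp r ≤ zs (r + 1) - zp (r + 1))
    (hne : ∀ r < L, 0 < r → zp r % al ≠ zs r % al)
    (hmp : ∀ r < L, mask.testBit ((L * zp r + ta * r) % (L * al)) = true)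
    (hms : ∀ r < L, mask.testBit ((L * zs r + ta * r) % (L * al)) = true)
    (hM : ∀ e < 3 * (L * al), Mk.testBit e = mask.testBit (e % (L * al)))
    (hA : ∀ d < L * al, 0 < d → (mask &&& (Mk >>> d) &&& (Mk >>> (2 * d))) = 0)
    (x : ℕ → ℕ) (hx : ∀ i, x i ≤ M)
    (hxe : ∀ m r, r < L → x (L * m + r) = P M al zp zs (x m) (r + 1) - P M al zp zs (x m) r)
    (k : ℕ) : ∀ n, 0 < k → ¬ IsSq (fun i => (x i : ℤ)) n k := by
  have hL0 : 0 < L := by omega
  have hN : 0 < L * al := Nat.mul_pos hL0 hal
  have hPmono : ∀ a r, r < L → P M al zp zs a r ≤ P M al zp zs a (r + 1) := by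
    intro a r hr
    have h1 := hp r hr
    have h2 := hd r hr
    unfold P
    omega
  have hP0 : ∀ a, P M al zp zs a 0 = 0 := by
    intro a; unfold P; simp [h0, h0']
  have hPL : ∀ a ≤ M, P M al zp zs a L = zp L + al * a := by
    intro a ha
    unfold P
    obtain ⟨b, rfl⟩ := Nat.exists_eq_add_of_le ha
    rw [hLt, Nat.add_sub_cancel_left, Nat.add_sub_cancel_left, Nat.add_mul, Nat.add_sub_cancel,
      Nat.mul_comm]
  -- prefix sums of x
  have dec : ∀ t : ℕ, S (fun i => (x i : ℤ)) t = ((t / L : ℕ) : ℤ) * (zp L : ℤ)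
      + (al : ℤ) * (S (fun i => (x i : ℤ)) (t / L)) + (P M al zp zs (x (t / L)) (t % L) : ℤ) := by
    intro t
    have := S_image (ι := {a : ℕ // a ≤ M}) (V := ℤ) L hL0 (fun i => ⟨x i, hx i⟩)
      (fun a => ((a : ℕ) : ℤ))
      (fun a r => ((P M al zp zs a (r + 1) : ℤ) - (P M al zp zs a r : ℤ)))
      (fun a r => (P M al zp zs a r : ℤ)) (al : ℤ) (zp L : ℤ)
      (fun a => by simp [hP0])
      (fun a r _ => by ring)
      (fun a => by
        have := hPL a a.2
        simp only [this]; push_cast; simp; ring)
      (fun i => (x i : ℤ))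
      (fun m r hr => by
        have h1 := hxe m r hr
        have h2 := hPmono (x m) r hr
        simp only [h1]
        push_cast [h2]
        ring)
      (t / L) (t % L) (Nat.mod_lt _ hL0).le
    rw [Nat.div_add_mod] at this
    rw [this]
    simp only [nsmul_eq_mul, smul_eq_mul]
    ring
  induction k using Nat.strong_induction_on with
  | _ k ih =>
  intro n hk h
  have hsq : S (fun i => (x i : ℤ)) n - 2 * S (fun i => (x i : ℤ)) (n + k)
      + S (fun i => (x i : ℤ)) (n + 2 * k) = 0 := by
    have := h
    unfold IsSq at this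
    simpa using this
  set X : ℕ → ℤ := fun i => (x i : ℤ) with hX
  set N := L * al with hNdef
  -- class of a position
  set C : ℕ → ℕ := fun t => (L * P M al zp zs (x (t / L)) (t % L) + ta * (t % L)) % N with hC
  have Clt : ∀ t, C t < N := fun t => Nat.mod_lt _ hN
  have castC : ∀ t, ((C t : ℕ) : ZMod N) = (L : ZMod N) * ((S X t : ℤ) : ZMod N)
      + (ta : ZMod N) * (t : ZMod N) := by
    intro t
    have e1 : ((C t : ℕ) : ZMod N) =
        ((L * P M al zp zs (x (t / L)) (t % L) + ta * (t % L) : ℕ) : ZMod N) := by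
      rw [ZMod.natCast_eq_natCast_iff]
      exact Nat.mod_modEq _ _
    rw [e1]
    have hdec := dec t
    have ht : (t : ℤ) = (L : ℤ) * ((t / L : ℕ) : ℤ) + ((t % L : ℕ) : ℤ) := by
      exact_mod_cast (Nat.div_add_mod t L).symm
    obtain ⟨c, hc⟩ := hbe
    have hc' : (zp L : ℤ) + ta = al * c := by exact_mod_cast hc
    generalize P M al zp zs (x (t / L)) (t % L) = PP at *
    generalize t % L = rr at *
    generalize t / L = qq at *
    have key : (((L : ℤ) * S X t + ta * t : ℤ) : ZMod N) =
        (((L : ℤ) * PP + ta * rr : ℤ) : ZMod N) := by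
      rw [ZMod.intCast_eq_intCast_iff_dvd_sub]
      refine ⟨-((qq : ℤ) * c + S X qq), ?_⟩
      push_cast [hNdef]
      rw [hdec]
      linear_combination -(ta : ℤ) * ht - (L : ℤ) * (qq : ℤ) * hc'
    push_cast at key ⊢
    rw [key]
  have memC : ∀ t, mask.testBit (C t) = true := by
    intro t
    have hr : t % L < L := Nat.mod_lt _ hL0
    rcases P_cases M al zp zs (x (t / L)) (t % L) (hle _ hr.le) with h1 | h1
    · simp only [hC, h1]
      exact hmp _ hr
    · have h2 := hms _ hr
      have : (L * zs (t % L) + ta * (t % L)) % N = C t := by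
        simp only [hC]
        rw [← h1]
        have : L * (P M al zp zs (x (t / L)) (t % L) + (M - x (t / L)) * al) + ta * (t % L) =
            (L * P M al zp zs (x (t / L)) (t % L) + ta * (t % L)) + N * (M - x (t / L)) := by
          rw [hNdef]; ring
        rw [this, Nat.add_mul_mod_self_left]
      rw [← this]; exact h2
  have z1 : ((C n : ℕ) : ZMod N) - 2 * (C (n + k) : ZMod N) + (C (n + 2 * k) : ZMod N) = 0 := by
    rw [castC, castC, castC]
    have : ((S X n - 2 * S X (n + k) + S X (n + 2 * k) : ℤ) : ZMod N) = 0 := by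
      rw [hsq]; simp
    push_cast at this ⊢
    linear_combination (L : ZMod N) * this
  set d := (C (n + k) + N - C n) % N with hdd
  have hdN : d < N := Nat.mod_lt _ hN
  have zd : (d : ZMod N) = (C (n + k) : ZMod N) - (C n : ZMod N) := by
    have : ((d : ℕ) : ZMod N) = ((C (n + k) + N - C n : ℕ) : ZMod N) := by
      rw [ZMod.natCast_eq_natCast_iff]
      exact Nat.mod_modEq _ _
    rw [this, Nat.cast_sub (by have := Clt n; omega)]
    push_cast
    simp
  have E : ∀ (t j : ℕ), (C t : ZMod N) = (C n : ZMod N) + j * (d : ZMod N) →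
      C t = (C n + j * d) % N := by
    intro t j hz
    have : ((C t : ℕ) : ZMod N) = ((C n + j * d : ℕ) : ZMod N) := by
      rw [hz]; push_cast; ring
    rw [ZMod.natCast_eq_natCast_iff] at this
    rw [← Nat.mod_eq_of_lt (Clt t)]
    exact this
  have e1 : C (n + k) = (C n + 1 * d) % N := E _ 1 (by rw [zd]; push_cast; ring)
  have e2 : C (n + 2 * k) = (C n + 2 * d) % N := E _ 2 (by
    rw [zd]; push_cast; linear_combination z1)
  have hd0 : d = 0 := by
    by_contra hne'
    have hpos : 0 < d := Nat.pos_of_ne_zero hne'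
    have m0 := memC n
    have m1 := memC (n + k)
    have m2 := memC (n + 2 * k)
    rw [e1, one_mul] at m1
    rw [e2] at m2
    exact apfree3 N mask Mk hM hA (C n) d (Clt n) hdN hpos m0 m1 m2
  rw [hd0] at e1 e2
  simp only [mul_zero, add_zero, Nat.mod_eq_of_lt (Clt n)] at e1 e2
  -- same place
  have place : ∀ s t : ℕ, C s = C t → s % L = t % L ∧
      P M al zp zs (x (s / L)) (s % L) % al = P M al zp zs (x (t / L)) (t % L) % al := by
    intro s t hc
    have h1 : (L * P M al zp zs (x (s / L)) (s % L) + ta * (s % L)) ≡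
      (L * P M al zp zs (x (t / L)) (t % L) + ta * (t % L)) [MOD L * al] := hc
    have h2 := h1.of_mul_right al
    have h3 : ta * (s % L) ≡ ta * (t % L) [MOD L] := by
      have u1 : L * P M al zp zs (x (s / L)) (s % L) + ta * (s % L) ≡ ta * (s % L) [MOD L] := by
        unfold Nat.ModEq; simp
      have u2 : L * P M al zp zs (x (t / L)) (t % L) + ta * (t % L) ≡ ta * (t % L) [MOD L] := by
        unfold Nat.ModEq; simp
      exact u1.symm.trans (h2.trans u2)
    have h4 := Nat.ModEq.cancel_left_of_coprime (by
      rw [Nat.gcd_comm]; exact hco) h3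
    have h5 : s % L = t % L := by
      unfold Nat.ModEq at h4
      simpa using h4
    refine ⟨h5, ?_⟩
    rw [h5] at h1
    have h6 := Nat.ModEq.add_right_cancel' _ h1
    have h7 := Nat.ModEq.mul_left_cancel' hL0.ne' h6
    rw [h5]
    exact h7
  obtain ⟨r1, p1⟩ := place n (n + k) e1.symm
  obtain ⟨r2, p2⟩ := place n (n + 2 * k) e2.symm
  -- L divides k
  have hLk : L ∣ k := by
    have : (n + 0) % L = (n + k) % L := by simpa using r1
    have h' := (Nat.ModEq.add_left_cancel' n this)
    exact (Nat.modEq_zero_iff_dvd).1 h'.symm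
  obtain ⟨q, rfl⟩ := hLk
  have hq : 0 < q := Nat.pos_of_mul_pos_left hk |> fun _ => by
    rcases Nat.eq_zero_or_pos q with h | h
    · subst h; simp at hk
    · exact h
  have q1 : (n + L * q) / L = n / L + q := by
    rw [Nat.add_mul_div_left _ _ hL0]
  have q2 : (n + 2 * (L * q)) / L = n / L + 2 * q := by
    rw [show 2 * (L * q) = L * (2 * q) by ring, Nat.add_mul_div_left _ _ hL0]
  have E0 := dec n
  have E1 := dec (n + L * q)
  have E2 := dec (n + 2 * (L * q))
  rw [q1, ← r1] at E1 p1
  rw [q2, ← r2] at E2 p2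
  set m := n / L with hm
  set r := n % L with hr
  have hrL : r < L := Nat.mod_lt _ hL0
  have qlt : q < L * q := by nlinarith
  -- types
  have hal' : (al : ℤ) ≠ 0 := by exact_mod_cast hal.ne'
  have ex : ∀ a b : ℕ, P M al zp zs a r % al = P M al zp zs b r % al →
      P M al zp zs a r = zp r → P M al zp zs b r = zp r := by
    intro a b hab ha
    rcases P_cases M al zp zs b r (hle _ hrL.le) with hb | hb
    · exact hb
    · rcases Nat.eq_zero_or_pos r with h00 | hpos
      · rw [h00, hP0, h0]
      · exfalso
        apply hne r hrL hpos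
        rw [← hb, Nat.add_mul_mod_self_right, ← hab, ha]
  rcases P_cases M al zp zs (x m) r (hle _ hrL.le) with ha | ha
  · have hb := ex _ _ p1 ha
    have hc := ex _ _ p2 ha
    rw [ha] at E0; rw [hb] at E1; rw [hc] at E2
    apply ih q qlt m hq
    unfold IsSq
    have : (al : ℤ) * (S X m - 2 * S X (m + q) + S X (m + 2 * q)) = 0 := by
      rw [← hsq, E0, E1, E2]
      push_cast
      ring
    have := (mul_eq_zero.1 this).resolve_left hal'
    simpa using this
  · by_cases hzz : P M al zp zs (x m) r = zp r
    · have hb := ex _ _ p1 hzz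
      have hc := ex _ _ p2 hzz
      rw [hzz] at E0; rw [hb] at E1; rw [hc] at E2
      apply ih q qlt m hq
      unfold IsSq
      have : (al : ℤ) * (S X m - 2 * S X (m + q) + S X (m + 2 * q)) = 0 := by
        rw [← hsq, E0, E1, E2]
        push_cast
        ring
      have := (mul_eq_zero.1 this).resolve_left hal'
      simpa using this
    · have hb : P M al zp zs (x (m + q)) r + (M - x (m + q)) * al = zs r := by
        rcases P_cases M al zp zs (x (m + q)) r (hle _ hrL.le) with hb | hb
        · exact absurd (ex _ _ p1.symm hb) hzz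
        · exact hb
      have hc : P M al zp zs (x (m + 2 * q)) r + (M - x (m + 2 * q)) * al = zs r := by
        rcases P_cases M al zp zs (x (m + 2 * q)) r (hle _ hrL.le) with hb | hb
        · exact absurd (ex _ _ p2.symm hb) hzz
        · exact hb
      have cst : ∀ a : ℕ, a ≤ M → P M al zp zs a r + (M - a) * al = zs r →
          (P M al zp zs a r : ℤ) = zs r - M * al + al * a := by
        intro a haM hh
        have : (P M al zp zs a r : ℤ) + ((M : ℤ) - a) * al = zs r := by
          have h' : ((P M al zp zs a r + (M - a) * al : ℕ) : ℤ) = zs r := by exact_mod_cast hh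
          push_cast [haM] at h'
          exact h'
        linear_combination this
      rw [cst _ (hx _) ha] at E0
      rw [cst _ (hx _) hb] at E1
      rw [cst _ (hx _) hc] at E2
      apply ih q qlt (m + 1) hq
      unfold IsSq
      have t1 : S X (m + 1) = S X m + x m := S_succ _ _
      have t2 : S X (m + 1 + q) = S X (m + q) + x (m + q) := by
        rw [show m + 1 + q = m + q + 1 by ring, S_succ]
      have t3 : S X (m + 1 + 2 * q) = S X (m + 2 * q) + x (m + 2 * q) := by
        rw [show m + 1 + 2 * q = m + 2 * q + 1 by ring, S_succ]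
      have : (al : ℤ) * (S X (m + 1) - 2 * S X (m + 1 + q) + S X (m + 1 + 2 * q)) = 0 := by
        rw [← hsq, E0, E1, E2, t1, t2, t3]
        push_cast
        ring
      have := (mul_eq_zero.1 this).resolve_left hal'
      simpa using this

end Pool.Agent.Helper776.Squares
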