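import Pool.Agent.Helper776.Base

set_option autoImplicit false

/-!
A ternary word without abelian cubes in which the numbers of occurrences of the letter 1
in two adjacent blocks of the same length differ by at most 5.
-/

namespace Pool.Agent.Helper776.Ternary

open Pool.Agent.Helper776.Dekking Pool.Agent.Helper776.Base

/-- packed images (base 4) of the 44-uniform map -/
def gcode (a : ℕ) : ℕ :=
  if a = 0 then 31821253882699635437431050 else if a = 1 then 19651715456344559721736458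
  else if a = 2 then 19654796069531294255638794 else 19654796069531268888488202

/-- packed prefix counts of the letter 0, base 32 -/
def zcode (a : ℕ) : ℕ :=
  if a = 0 then 15599807849691784705902951106160206354338056179134230179796618346496
  else if a = 1 then 20817807302147019783037714722271882366868806881071751363721628254208
  else if a = 2 then 31253915689431088928106023995911333584625269756891954380743915896832
  else 36471969883073148243202865625657068553716288823974025928136424718336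

/-- packed prefix counts of the letter 1, base 32 -/
def ucode (a : ℕ) : ℕ :=
  if a = 0 then 22609869533642773076890346732614192554414570761874670756062746902528
  else if a = 1 then 22609869535261088368044725367040607015085297259776059269088630800384
  else if a = 2 then 22609869535262718190919918053302946614885556132721433543163561115648
  else 22609869535262718190919918053302946614885596027273480825926326419456

def g (a r : ℕ) : ℕ := (gcode a >>> (2 * r)) % 4
def z (a r : ℕ) : ℕ := (zcode a >>> (5 * r)) % 32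
def u (a r : ℕ) : ℕ := (ucode a >>> (5 * r)) % 32

def cls (a r : ℕ) : ℕ := (203 * z a r + 132 * u a r + (1827 - 39 * r)) % 609

def mask : ℕ := (List.range 4).foldl (fun acc a => (List.range 44).foldl
  (fun acc r => acc ||| (1 <<< cls a r)) acc) 0

theorem cls_def (a r : ℕ) : cls a r = (203 * z a r + 132 * u a r + (1827 - 39 * r)) % 609 := rfl

def isz (c : ℕ) : ℕ := if c = 0 then 1 else 0
def iso (c : ℕ) : ℕ := if c = 1 then 1 else 0

theorem zero : ∀ a < 4, z a 0 = 0 ∧ u a 0 = 0 := by decide +kernel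

theorem succ : ∀ a < 4, ∀ r < 44, z a (r + 1) = z a r + isz (g a r) ∧
    u a (r + 1) = u a r + iso (g a r) ∧ g a r < 3 := by decide +kernel

theorem top : ∀ a < 4, z a 44 = 9 + 3 * sv a ∧ u a 44 = 13 := by decide +kernel

theorem band : ∀ a < 4, ∀ r < 44, 44 * u a r ≤ 13 * r + 65 ∧ 13 * r ≤ 44 * u a r + 65 := by
  decide +kernel

theorem memb : ∀ a < 4, ∀ r < 44, mask.testBit (cls a r) = true := by decide +kernel

theorem place : ∀ a < 4, ∀ r < 44, ∀ b < 4, ∀ t < 44, cls a r = cls b t → r = t := by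
  decide +kernel

set_option synthInstance.maxSize 100000 in
theorem apfree : ∀ a0 < 4, ∀ r0 < 44, ∀ a1 < 4, ∀ r1 < 44, cls a0 r0 ≠ cls a1 r1 →
    ¬ (mask.testBit ((2 * cls a1 r1 + 609 - cls a0 r0) % 609) = true ∧
       mask.testBit ((3 * cls a1 r1 + 1218 - 2 * cls a0 r0) % 609) = true) := by decide +kernel

set_option synthInstance.maxSize 100000 in
theorem types : ∀ r < 44, ∀ a0 < 4, ∀ a1 < 4, ∀ a2 < 4, ∀ a3 < 4,
    (cls a0 r = cls a1 r ∧ cls a1 r = cls a2 r ∧ cls a2 r = cls a3 r) →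
    (u a0 r = u a1 r ∧ u a1 r = u a2 r ∧ u a2 r = u a3 r) ∧
    ((z a0 r = z a1 r ∧ z a1 r = z a2 r ∧ z a2 r = z a3 r) ∨
     (z a0 r + 3 * sv a1 = z a1 r + 3 * sv a0 ∧ z a1 r + 3 * sv a2 = z a2 r + 3 * sv a1 ∧
      z a2 r + 3 * sv a3 = z a3 r + 3 * sv a2)) := by decide +kernel

/-- the ternary word -/
def y (n : ℕ) : ℕ := g (x (n / 44)) (n % 44)

theorem y_lt (n : ℕ) : y n < 3 := (succ _ (x_lt _) _ (Nat.mod_lt _ (by norm_num))).2.2

/-- indicator vector of the letters 0 and 1 -/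
def yv (n : ℕ) : ℤ × ℤ := ((isz (y n) : ℤ), (iso (y n) : ℤ))

def f : ℤ × ℤ →+ ℤ where
  toFun v := 203 * v.1 + 132 * v.2
  map_zero' := by simp
  map_add' v w := by simp; ring

theorem y_at (m r : ℕ) (hr : r < 44) : y (44 * m + r) = g (x m) r := by
  have h1 : (44 * m + r) / 44 = m := by omega
  have h2 : (44 * m + r) % 44 = r := by omega
  simp only [y, h1, h2]

theorem ar1 (c0 c1 c2 z0 u0 r0 z1 u1 r1 z2 u2 r2 : ℕ) (h0 : r0 < 44) (h1 : r1 < 44) (h2 : r2 < 44)
  (e0 : c0 = (203 * z0 + 132 * u0 + (1827 - 39 * r0)) % 609)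
  (e1 : c1 = (203 * z1 + 132 * u1 + (1827 - 39 * r1)) % 609)
  (e2 : c2 = (203 * z2 + 132 * u2 + (1827 - 39 * r2)) % 609)
  (d1 : (609:ℤ) ∣ ((r0:ℤ) * (-39) + (203 * (z0:ℤ) + 132 * (u0:ℤ))) - 2 * ((r1:ℤ) * (-39) + (203 * (z1:ℤ) + 132 * (u1:ℤ))) + ((r2:ℤ) * (-39) + (203 * (z2:ℤ) + 132 * (u2:ℤ)))) :
  c2 = (2 * c1 + 609 - c0) % 609 := by
  omega

theorem ar2 (c0 c1 c2 c3 : ℕ)  (e0 : c0 < 609) (e1 : c1 < 609)
  (h2 : c2 = (2 * c1 + 609 - c0) % 609) (h3 : c3 = (2 * c2 + 609 - c1) % 609) :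
  c3 = (3 * c1 + 1218 - 2 * c0) % 609 := by
  omega

theorem chk (a0 a1 a2 a3 r0 r1 r2 r3 : ℕ) (ha0 : a0 < 4) (ha1 : a1 < 4) (ha2 : a2 < 4) (ha3 : a3 < 4)
    (h0 : r0 < 44) (h1 : r1 < 44) (h2 : r2 < 44) (h3 : r3 < 44)
    (d1 : (609:ℤ) ∣ ((r0:ℤ) * (-39) + (203 * (z a0 r0:ℤ) + 132 * (u a0 r0:ℤ))) - 2 * ((r1:ℤ) * (-39) + (203 * (z a1 r1:ℤ) + 132 * (u a1 r1:ℤ))) + ((r2:ℤ) * (-39) + (203 * (z a2 r2:ℤ) + 132 * (u a2 r2:ℤ))))
    (d2 : (609:ℤ) ∣ ((r1:ℤ) * (-39) + (203 * (z a1 r1:ℤ) + 132 * (u a1 r1:ℤ))) - 2 * ((r2:ℤ) * (-39) + (203 * (z a2 r2:ℤ) + 132 * (u a2 r2:ℤ))) + ((r3:ℤ) * (-39) + (203 * (z a3 r3:ℤ) + 132 * (u a3 r3:ℤ)))) :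
    cls a0 r0 = cls a1 r1 ∧ cls a1 r1 = cls a2 r2 ∧ cls a2 r2 = cls a3 r3 := by
  have c2 := ar1 _ _ _ _ _ _ _ _ _ _ _ _ h0 h1 h2 (cls_def a0 r0) (cls_def a1 r1) (cls_def a2 r2) d1
  have c3' := ar1 _ _ _ _ _ _ _ _ _ _ _ _ h1 h2 h3 (cls_def a1 r1) (cls_def a2 r2) (cls_def a3 r3) d2
  have l0 : cls a0 r0 < 609 := by rw [cls_def]; exact Nat.mod_lt _ (by norm_num)
  have l1 : cls a1 r1 < 609 := by rw [cls_def]; exact Nat.mod_lt _ (by norm_num)
  have c3 := ar2 _ _ _ _ l0 l1 c2 c3'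
  have m2 := memb a2 ha2 r2 h2
  have m3 := memb a3 ha3 r3 h3
  have eq01 : cls a0 r0 = cls a1 r1 := by
    by_contra hne
    rw [c2] at m2
    rw [c3] at m3
    exact apfree a0 ha0 r0 h0 a1 ha1 r1 h1 hne ⟨m2, m3⟩
  have l2 : cls a2 r2 = cls a1 r1 := by
    rw [c2, eq01]; omega
  have l3 : cls a3 r3 = cls a2 r2 := by
    rw [c3', l2]; omega
  exact ⟨eq01, l2.symm, l3.symm⟩

theorem no_cube (n k : ℕ) (hk : 0 < k) : ¬ IsCube yv n k := by
  intro h
  have key := descend (ι := Fin 4) (V := ℤ × ℤ) 44 (by norm_num) xf (fun a => (sv a : ℤ))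
    (fun a r => ((isz (g a r) : ℤ), (iso (g a r) : ℤ))) (fun a r => ((z a r : ℤ), (u a r : ℤ)))
    (3, 0) (9, 13)
    (fun a => by
      have := zero a a.2
      simp [this.1, this.2])
    (fun a r hr => by
      have := succ a a.2 r hr
      simp [this.1, this.2.1])
    (fun a => by
      have := top a a.2
      ext <;> simp [this.1, this.2]; ring)
    yv
    (fun m r hr => by
      simp only [yv, xf]
      rw [y_at m r hr])
    (fun z hz => by
      have : z * 3 = 0 := by simpa using hz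
      omega)
    609 (-39) f (by simp [f]) (by simp [f])
    (by
      intro a0 a1 a2 a3 r0 r1 r2 r3 h0 h1 h2 h3 d1 d2
      obtain ⟨eq01, eq12, eq23⟩ := chk a0 a1 a2 a3 r0 r1 r2 r3 a0.2 a1.2 a2.2 a3.2 h0 h1 h2 h3 d1 d2
      have hr01 : r0 = r1 := place a0 a0.2 r0 h0 a1 a1.2 r1 h1 eq01
      have hr12 : r1 = r2 := place a1 a1.2 r1 h1 a2 a2.2 r2 h2 eq12
      have hr23 : r2 = r3 := place a2 a2.2 r2 h2 a3 a3.2 r3 h3 eq23
      subst hr01 hr12 hr23
      refine ⟨⟨rfl, rfl, rfl⟩, ?_⟩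
      obtain ⟨⟨u1, u2, u3⟩, t⟩ := types r0 h0 a0 a0.2 a1 a1.2 a2 a2.2 a3 a3.2 ⟨eq01, eq12, eq23⟩
      clear d1 d2 eq01 eq12 eq23
      simp only [Prod.mk.injEq, Prod.smul_mk, smul_eq_mul, mul_zero, Prod.mk_sub_mk, sub_zero]
      rcases t with ⟨t1, t2, t3⟩ | ⟨t1, t2, t3⟩
      · left
        exact ⟨⟨by exact_mod_cast t1, by exact_mod_cast u1⟩, ⟨by exact_mod_cast t2, by exact_mod_cast u2⟩,
          ⟨by exact_mod_cast t3, by exact_mod_cast u3⟩⟩
      · right
        exact ⟨⟨by omega, by exact_mod_cast u1⟩, ⟨by omega, by exact_mod_cast u2⟩,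
          ⟨by omega, by exact_mod_cast u3⟩⟩)
    n k h
  obtain ⟨m, q, rfl, hq⟩ := key
  exact Base.no_cube q m (by omega) hq

/-- number of ones in the prefix of length n -/
theorem ones_dev (n : ℕ) : |44 * (S yv n).2 - 13 * (n : ℤ)| ≤ 65 := by
  have key := S_image (ι := Fin 4) (V := ℤ × ℤ) 44 (by norm_num) xf (fun a => (sv a : ℤ))
    (fun a r => ((isz (g a r) : ℤ), (iso (g a r) : ℤ))) (fun a r => ((z a r : ℤ), (u a r : ℤ)))
    (3, 0) (9, 13)
    (fun a => by
      have := zero a a.2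
      simp [this.1, this.2])
    (fun a r hr => by
      have := succ a a.2 r hr
      simp [this.1, this.2.1])
    (fun a => by
      have := top a a.2
      ext <;> simp [this.1, this.2]; ring)
    yv
    (fun m r hr => by
      simp only [yv, xf]
      rw [y_at m r hr]) (n / 44) (n % 44) (Nat.mod_lt _ (by norm_num)).le
  rw [Nat.div_add_mod] at key
  rw [key]
  have b := band (x (n / 44)) (x_lt _) (n % 44) (Nat.mod_lt _ (by norm_num))
  have hn : (n : ℤ) = 44 * ((n / 44 : ℕ) : ℤ) + ((n % 44 : ℕ) : ℤ) := by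
    exact_mod_cast (Nat.div_add_mod n 44).symm
  simp only [Prod.snd_add, Prod.smul_snd, smul_zero, xf]
  simp only [nsmul_eq_mul]
  rw [abs_le]
  constructor <;> (rw [hn]; push_cast; omega)

/-- adjacent blocks of equal length: the numbers of ones differ by at most 5 -/
theorem ones_balanced (n k : ℕ) :
    |(S yv n).2 - 2 * (S yv (n + k)).2 + (S yv (n + 2 * k)).2| ≤ 5 := by
  have h0 := ones_dev n
  have h1 := ones_dev (n + k)
  have h2 := ones_dev (n + 2 * k)
  rw [abs_le] at *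
  push_cast at *
  omega

end Pool.Agent.Helper776.Ternary
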