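import Pool.Agent.Helper776.Ternary

set_option autoImplicit false

/-!
Additive cubes are avoidable over {0, i, j} for coprime i < j with 6 ≤ j.
-/

namespace Pool.Agent.Helper776.Three

open Finset Pool.Agent.Helper776.Dekking Pool.Agent.Helper776.Ternary

/-- the word over {0, i, j} -/
def w (i j n : ℕ) : ℕ := if y n = 0 then 0 else if y n = 1 then i else j

theorem w_mem (i j n : ℕ) : w i j n = 0 ∨ w i j n = i ∨ w i j n = j := by
  unfold w; split_ifs <;> simp

theorem w_int (i j n : ℕ) : (w i j n : ℤ) = i * (yv n).2 + j * (1 - (yv n).1 - (yv n).2) := by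
  unfold w yv isz iso
  by_cases h0 : y n = 0
  · simp [h0]
  · by_cases h1 : y n = 1
    · simp [h1]
    · simp [h0, h1]

theorem W_eq (i j n : ℕ) : S (fun t => (w i j t : ℤ)) n =
    i * (S yv n).2 + j * ((n : ℤ) - (S yv n).1 - (S yv n).2) := by
  induction n with
  | zero => simp [S]
  | succ n ih =>
    rw [S_succ, S_succ, ih, w_int]
    push_cast
    simp only [Prod.fst_add, Prod.snd_add]
    ring

theorem no_cube (i j : ℕ) (hij : Nat.Coprime i j) (hj : 6 ≤ j) (n k : ℕ) (hk : 0 < k) :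
    ¬ IsCube (fun t => (w i j t : ℤ)) n k := by
  rintro ⟨h1, h2⟩
  rw [W_eq, W_eq, W_eq] at h1 h2
  have key : ∀ U Z : ℤ, |U| ≤ 5 → (i : ℤ) * U + j * (0 - Z - U) = 0 → U = 0 ∧ Z = 0 := by
    intro U Z hU h
    have hd : (j : ℤ) ∣ (i : ℤ) * U := ⟨Z + U, by linarith⟩
    have hc : IsCoprime (j : ℤ) (i : ℤ) := by
      rw [Nat.isCoprime_iff_coprime]; exact hij.symm
    have hd' : (j : ℤ) ∣ U := hc.dvd_of_dvd_mul_left hd
    have hU0 : U = 0 := by
      apply Int.eq_zero_of_abs_lt_dvd hd'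
      have : (6 : ℤ) ≤ j := by exact_mod_cast hj
      omega
    refine ⟨hU0, ?_⟩
    subst hU0
    have hj0 : (j : ℤ) ≠ 0 := by
      have : (6 : ℤ) ≤ j := by exact_mod_cast hj
      omega
    have : (j : ℤ) * Z = 0 := by linarith
    exact (mul_eq_zero.1 this).resolve_left hj0
  have b1 := ones_balanced n k
  have b2 := ones_balanced (n + k) k
  rw [show n + k + k = n + 2 * k by ring, show n + k + 2 * k = n + 3 * k by ring] at b2
  have k1 := key _ ((S yv n).1 - 2 * (S yv (n + k)).1 + (S yv (n + 2 * k)).1) b1 (by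
    push_cast at h1
    simp only [smul_eq_mul, nsmul_eq_mul] at h1
    push_cast at h1
    linarith)
  have k2 := key _ ((S yv (n + k)).1 - 2 * (S yv (n + 2 * k)).1 + (S yv (n + 3 * k)).1) b2 (by
    push_cast at h2
    simp only [smul_eq_mul, nsmul_eq_mul] at h2
    push_cast at h2
    linarith)
  apply Ternary.no_cube n k hk
  refine ⟨Prod.ext ?_ ?_, Prod.ext ?_ ?_⟩
  · simpa using k1.2
  · simpa using k1.1
  · simpa using k2.2
  · simpa using k2.1

/-- block sums in terms of prefix sums -/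
theorem block_cube (v : ℕ → ℤ) (p L : ℕ)
    (h1 : ∑ k ∈ range L, v (p + k) = ∑ k ∈ range L, v (p + L + k))
    (h2 : ∑ k ∈ range L, v (p + L + k) = ∑ k ∈ range L, v (p + 2 * L + k)) : IsCube v p L := by
  have e1 := S_add v p L
  have e2 := S_add v (p + L) L
  have e3 := S_add v (p + 2 * L) L
  rw [show p + L + L = p + 2 * L by ring] at e2
  rw [show p + 2 * L + L = p + 3 * L by ring] at e3
  constructor
  · simp only [smul_eq_mul, nsmul_eq_mul]; push_cast; linarith
  · simp only [smul_eq_mul, nsmul_eq_mul]; push_cast; linarith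

theorem main (i j : ℕ) (hij : Nat.Coprime i j) (hj : 6 ≤ j) :
    ∃ w : ℕ → ℕ, (∀ n, w n = 0 ∨ w n = i ∨ w n = j) ∧
      ∀ p L : ℕ, 0 < L →
        ¬ ((∑ k ∈ range L, w (p + k)) = (∑ k ∈ range L, w (p + L + k)) ∧
           (∑ k ∈ range L, w (p + L + k)) = (∑ k ∈ range L, w (p + 2 * L + k))) := by
  refine ⟨w i j, w_mem i j, fun p L hL h => no_cube i j hij hj p L hL ?_⟩
  apply block_cube
  · exact_mod_cast h.1
  · exact_mod_cast h.2

end Pool.Agent.Helper776.Three
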